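import Mathlib.Computability.TuringMachine.Computable
import Mathlib.Order.Nat
import Mathlib.Data.Nat.Nth
import Mathlib.Data.Finset.Card
import Mathlib.Data.Finset.Union
import Mathlib.Data.Nat.Bits

/-!
# Clause-sets, autarkies, surplus, and codes of clause-sets by strings
-/

namespace Pool.Agent.Helper80.Aut

/-- A literal: `(true, v)` is the variable `v` and `(false, v)` is its complement. -/
abbrev Literal := Bool × ℕ

/-- The complement of a literal. -/
def comp (x : Literal) : Literal := (!x.1, x.2)

/-- A set of literals without a complementary pair. -/
def NoPair (S : Finset Literal) : Prop := ∀ x ∈ S, comp x ∉ S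

/-- A clause-set: a finite set of clauses; a clause is a finite set of literals without a
complementary pair, and variables are positive integers. -/
def IsClauseSet (F : Finset (Finset Literal)) : Prop :=
  ∀ C ∈ F, NoPair C ∧ ∀ x ∈ C, 0 < x.2

/-- The set of variables occurring in `F`. -/
def varSet (F : Finset (Finset Literal)) : Finset ℕ := F.biUnion (fun C => C.image Prod.snd)

/-- `S` is an autarky for `F`: a partial assignment (the literals set true) such that each clause
of `F` which contains the complement of some literal of `S` also contains a literal of `S`. -/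
def IsAutarky (F : Finset (Finset Literal)) (S : Finset Literal) : Prop :=
  NoPair S ∧ ∀ D ∈ F, (∃ x ∈ S, comp x ∈ D) → (D ∩ S).Nonempty

/-- `S` is non-trivial for `F`. -/
def NonTrivial (F : Finset (Finset Literal)) (S : Finset Literal) : Prop :=
  ∃ v ∈ varSet F, (true, v) ∈ S ∨ (false, v) ∈ S

/-- The literal degree. -/
def ldeg (F : Finset (Finset Literal)) (x : Literal) : ℕ := (F.filter (fun C => x ∈ C)).card

/-- The variable degree. -/
def vdeg (F : Finset (Finset Literal)) (v : ℕ) : ℕ := ldeg F (true, v) + ldeg F (false, v)

/-- `m` is the min-var-degree of `F`. -/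
def IsMinVarDeg (F : Finset (Finset Literal)) (m : ℕ) : Prop :=
  IsLeast {d : ℕ | ∃ v ∈ varSet F, d = vdeg F v} m

/-- The clauses adjacent to the set `V` of variables. -/
def Gam (F : Finset (Finset Literal)) (V : Finset ℕ) : Finset (Finset Literal) :=
  F.filter (fun C => ∃ x ∈ C, x.2 ∈ V)

/-- `s` is the surplus of `F`. -/
def IsSurplus (F : Finset (Finset Literal)) (s : ℤ) : Prop :=
  IsLeast {t : ℤ | ∃ V : Finset ℕ, V.Nonempty ∧ V ⊆ varSet F ∧
    t = ((Gam F V).card : ℤ) - (V.card : ℤ)} s

/-- `nM k`, for `k ≥ 1`, is the `k`-th natural number not of the form `2 ^ n - 1`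
(`0 = 2 ^ 0 - 1` is of this form). -/
noncomputable def nM (k : ℕ) : ℕ := Nat.nth (fun m => ¬ ∃ n : ℕ, m + 1 = 2 ^ n) (k - 1)

/-! ### Codes by strings -/

/-- The code of a boolean. -/
def codeBool : Bool → List Bool
  | true => [true, false, false]
  | false => [false]

/-- The code of a list, given codes of its entries: `true` announces an entry, `false` is the end
of the list. -/
def codeList {α : Type} (c : α → List Bool) : List α → List Bool
  | [] => [false]
  | a :: l => true :: (c a ++ codeList c l)

/-- The code of a literal: its sign and the binary digits of its variable. -/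
def codeLit (x : Literal) : List Bool :=
  true :: (codeBool x.1 ++ codeList codeBool (Nat.bits x.2))

/-- The code of a list of literals. -/
def codeLits : List Literal → List Bool := codeList codeLit

/-- The code of a list of lists of literals. -/
def codeCNF : List (List Literal) → List Bool := codeList codeLits

/-- The clause-set represented by a list of lists of literals. -/
def clauseSet (L : List (List Literal)) : Finset (Finset Literal) :=
  (L.map (fun l => l.toFinset)).toFinset

end Pool.Agent.Helper80.Aut
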