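import Mathlib
import Pool.Agent.Helper80.Aut.Defs

/-!
# Non-Mersenne numbers
-/

namespace Pool.Agent.Helper80.Aut

open Classical in
theorem count_nm (m : ℕ) : Nat.count (fun m => ¬ ∃ n : ℕ, m + 1 = 2 ^ n) (m + 1) + Nat.log 2 (m + 1) = m := by
  induction m with
  | zero =>
    have h : ¬ (¬ ∃ n : ℕ, 0 + 1 = 2 ^ n) := not_not.2 ⟨0, by norm_num⟩
    rw [Nat.count_succ, if_neg h]
    simp
  | succ m ih =>
    rw [Nat.count_succ]
    by_cases h : ∃ n : ℕ, m + 1 + 1 = 2 ^ n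
    · rw [if_neg (not_not.2 h)]
      obtain ⟨n, hn⟩ := h
      have hn1 : 1 ≤ n := by
        by_contra h0
        have : n = 0 := by omega
        subst this
        simp at hn
      obtain ⟨n, rfl⟩ : ∃ n', n = n' + 1 := ⟨n - 1, by omega⟩
      have h1 : Nat.log 2 (m + 1 + 1) = n + 1 := by rw [hn]; exact Nat.log_pow (by norm_num) _
      have h2 : Nat.log 2 (m + 1) = n := by
        rw [Nat.log_eq_iff (Or.inr ⟨by norm_num, by omega⟩)]
        have : 2 ^ n ≥ 1 := Nat.one_le_two_pow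
        have h3 : 2 ^ (n + 1) = 2 ^ n + 2 ^ n := by ring
        constructor <;> omega
      omega
    · rw [if_pos h]
      have h1 : Nat.log 2 (m + 1 + 1) = Nat.log 2 (m + 1) := by
        rw [Nat.log_eq_iff (Or.inr ⟨by norm_num, by omega⟩)]
        have h2 := Nat.pow_log_le_self 2 (show m + 1 ≠ 0 by omega)
        have h3 := Nat.lt_pow_succ_log_self (show 1 < 2 by norm_num) (m + 1)
        refine ⟨by omega, ?_⟩
        by_contra h4
        exact h ⟨Nat.log 2 (m + 1) + 1, by omega⟩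
      omega

theorem nm_infinite : {m : ℕ | ¬ ∃ n : ℕ, m + 1 = 2 ^ n}.Infinite := by
  rw [Set.infinite_iff_exists_gt]
  intro a
  refine ⟨2 ^ (a + 2), ?_, ?_⟩
  · rintro ⟨n, hn⟩
    have h1 : 2 ^ (a + 2) < 2 ^ n := by omega
    have h2 : 2 ^ n < 2 ^ (a + 3) := by
      have : 2 ^ (a + 3) = 2 ^ (a + 2) + 2 ^ (a + 2) := by ring
      have h3 : 2 ^ (a + 2) ≥ 2 ^ 1 := Nat.pow_le_pow_right (by norm_num) (by omega)
      omega
    rw [Nat.pow_lt_pow_iff_right (by norm_num)] at h1 h2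
    omega
  · have : a < 2 ^ a := Nat.lt_two_pow_self
    have h3 : 2 ^ a ≤ 2 ^ (a + 2) := Nat.pow_le_pow_right (by norm_num) (by omega)
    omega

theorem nM_log {k : ℕ} (hk : 1 ≤ k) : k + Nat.log 2 (nM k + 1) = nM k := by
  classical
  have h1 := count_nm (nM k)
  have h2 : Nat.count (fun m => ¬ ∃ n : ℕ, m + 1 = 2 ^ n) (nM k + 1) = k := by
    unfold nM
    rw [Nat.count_nth_succ_of_infinite nm_infinite]
    omega
  omega

theorem nM_le {k m : ℕ} (hk : 1 ≤ k) (h : k + Nat.log 2 (m + 1) ≤ m) : nM k ≤ m := by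
  classical
  have h1 := count_nm m
  have h2 : k - 1 < Nat.count (fun m => ¬ ∃ n : ℕ, m + 1 = 2 ^ n) (m + 1) := by omega
  have h3 := Nat.nth_lt_of_lt_count h2
  unfold nM
  omega

theorem lt_nM {k : ℕ} (hk : 1 ≤ k) : k + 1 ≤ nM k := by
  have h1 := nM_log hk
  have h2 : 1 ≤ Nat.log 2 (nM k + 1) := Nat.log_pos (by norm_num) (by omega)
  omega

/-- The main inequality. -/
theorem nM_step {k i : ℕ} (hk : 1 ≤ k) (hi : i ≤ k) (h : nM k < 2 * i) :
    nM (k + 1 - i) + i ≤ nM k := by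
  have h1 := nM_log hk
  have h2 := lt_nM hk
  have h3 : nM (k + 1 - i) ≤ nM k - i := by
    apply nM_le (by omega)
    have h4 : Nat.log 2 (nM k - i + 1) ≤ Nat.log 2 ((nM k + 1) / 2) := Nat.log_mono_right (by omega)
    have h5 : Nat.log 2 ((nM k + 1) / 2) = Nat.log 2 (nM k + 1) - 1 := Nat.log_div_base 2 _
    have h6 : 1 ≤ Nat.log 2 (nM k + 1) := Nat.log_pos (by norm_num) (by omega)
    omega
  omega

end Pool.Agent.Helper80.Aut
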