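import Mathlib
import Pool.Agent.Helper80.Aut.NM

/-!
# The greedy step
-/

namespace Pool.Agent.Helper80.Aut

variable {ν : Type} [DecidableEq ν]

/-- Occurrence of a variable in a clause. -/
def occ (w : ν) (C : List (Bool × ν)) : Bool := C.any (fun l => decide (l.2 = w))

theorem occ_iff {w : ν} {C : List (Bool × ν)} : occ w C = true ↔ ∃ l ∈ C, l.2 = w := by
  simp [occ]

/-- Clauses touching `X`. -/
def Ga (J : Finset (List (Bool × ν))) (X : Finset ν) : Finset (List (Bool × ν)) :=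
  J.filter (fun C => ∃ w ∈ X, occ w C = true)

/-- literal degree -/
def ld (J : Finset (List (Bool × ν))) (l : Bool × ν) : ℕ := (J.filter (fun C => l ∈ C)).card

/-- A system of distinct variables for the clauses in `Q` with values in `U`. -/
def Mat (Q : Finset (List (Bool × ν))) (U : Finset ν) : Prop :=
  ∃ f : List (Bool × ν) → ν, Set.InjOn f Q ∧ ∀ C ∈ Q, f C ∈ U ∧ occ (f C) C = true

theorem mem_Ga {J : Finset (List (Bool × ν))} {X : Finset ν} {C : List (Bool × ν)} :
    C ∈ Ga J X ↔ C ∈ J ∧ ∃ w ∈ X, occ w C = true := by simp [Ga]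

theorem Ga_sub (J : Finset (List (Bool × ν))) (X : Finset ν) : Ga J X ⊆ J :=
  Finset.filter_subset _ _

theorem Ga_mono {J J' : Finset (List (Bool × ν))} {X X' : Finset ν} (h : J ⊆ J') (h' : X ⊆ X') :
    Ga J X ⊆ Ga J' X' := by
  intro C hC
  rw [mem_Ga] at hC ⊢
  obtain ⟨h1, w, hw, h2⟩ := hC
  exact ⟨h h1, w, h' hw, h2⟩

theorem Mat.union {Q Q' : Finset (List (Bool × ν))} {U U' : Finset ν} (h : Mat Q U)
    (h' : Mat Q' U') (hU : Disjoint U U') : Mat (Q ∪ Q') (U ∪ U') := by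
  classical
  obtain ⟨f, hf1, hf2⟩ := h
  obtain ⟨g, hg1, hg2⟩ := h'
  refine ⟨fun C => if C ∈ Q then f C else g C, ?_, ?_⟩
  · intro C hC D hD hCD
    simp only at hCD
    rw [Finset.mem_coe, Finset.mem_union] at hC hD
    by_cases h1 : C ∈ Q <;> by_cases h2 : D ∈ Q
    · rw [if_pos h1, if_pos h2] at hCD
      exact hf1 h1 h2 hCD
    · rw [if_pos h1, if_neg h2] at hCD
      have h3 := (hf2 C h1).1
      have h4 := (hg2 D (hD.resolve_left h2)).1
      rw [hCD] at h3
      exact absurd h4 (Finset.disjoint_left.1 hU h3)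
    · rw [if_neg h1, if_pos h2] at hCD
      have h3 := (hf2 D h2).1
      have h4 := (hg2 C (hC.resolve_left h1)).1
      rw [hCD] at h4
      exact absurd h4 (Finset.disjoint_left.1 hU h3)
    · rw [if_neg h1, if_neg h2] at hCD
      exact hg1 (hC.resolve_left h1) (hD.resolve_left h2) hCD
  · intro C hC
    simp only
    rw [Finset.mem_union] at hC
    by_cases h1 : C ∈ Q
    · rw [if_pos h1]
      exact ⟨Finset.mem_union_left _ (hf2 C h1).1, (hf2 C h1).2⟩
    · rw [if_neg h1]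
      have h2 := hC.resolve_left h1
      exact ⟨Finset.mem_union_right _ (hg2 C h2).1, (hg2 C h2).2⟩

theorem Mat.mono {Q Q' : Finset (List (Bool × ν))} {U U' : Finset ν} (h : Mat Q U)
    (hQ : Q' ⊆ Q) (hU : U ⊆ U') : Mat Q' U' := by
  obtain ⟨f, hf1, hf2⟩ := h
  exact ⟨f, hf1.mono (by exact_mod_cast hQ), fun C hC => ⟨hU (hf2 C (hQ hC)).1, (hf2 C (hQ hC)).2⟩⟩

/-- Hall's theorem. -/
theorem Mat.of_hall (v0 : ν) {Q : Finset (List (Bool × ν))} {U : Finset ν}
    (h : ∀ Q' ⊆ Q, Q'.card ≤ (U.filter (fun w => ∃ C ∈ Q', occ w C = true)).card) : Mat Q U := by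
  classical
  have h1 : ∃ f : {C // C ∈ Q} → ν, Function.Injective f ∧
      ∀ C, f C ∈ U.filter (fun w => occ w C.1 = true) := by
    rw [← Finset.all_card_le_biUnion_card_iff_exists_injective]
    intro s
    have h2 := h (s.map (Function.Embedding.subtype _)) (by
      intro C hC
      rw [Finset.mem_map] at hC
      obtain ⟨D, _, rfl⟩ := hC
      exact D.2)
    rw [Finset.card_map] at h2
    refine h2.trans (Finset.card_le_card ?_)
    intro w hw
    rw [Finset.mem_filter] at hw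
    obtain ⟨hwU, C, hC, hwC⟩ := hw
    rw [Finset.mem_map] at hC
    obtain ⟨D, hD, rfl⟩ := hC
    rw [Finset.mem_biUnion]
    exact ⟨D, hD, Finset.mem_filter.2 ⟨hwU, hwC⟩⟩
  obtain ⟨f, hf1, hf2⟩ := h1
  refine ⟨fun C => if hC : C ∈ Q then f ⟨C, hC⟩ else v0, ?_, ?_⟩
  · intro C hC D hD hCD
    rw [Finset.mem_coe] at hC hD
    simp only [hC, hD, dif_pos] at hCD
    exact congrArg Subtype.val (hf1 hCD)
  · intro C hC
    simp only [hC, dif_pos]
    exact Finset.mem_filter.1 (hf2 ⟨C, hC⟩)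

/-- The invariant of the greedy procedure. -/
structure Inv (J : Finset (List (Bool × ν))) (V : Finset ν) (k : ℕ) : Prop where
  hk : 1 ≤ k
  ne : V.Nonempty
  card : J.card = V.card + k
  sur : ∀ X ⊆ V, X.Nonempty → X.card + k ≤ (Ga J X).card
  deg : ∀ v ∈ V, nM k < ld J (true, v) + ld J (false, v)
  taut : ∀ C ∈ J, ∀ v, ¬ ((true, v) ∈ C ∧ (false, v) ∈ C)

theorem ld_le_card (J : Finset (List (Bool × ν))) (l : Bool × ν) : ld J l ≤ J.card :=
  Finset.card_le_card (Finset.filter_subset _ _)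

/-- without tautologies the variable degree is at most the number of clauses -/
theorem deg_le_card {J : Finset (List (Bool × ν))}
    (taut : ∀ C ∈ J, ∀ v, ¬ ((true, v) ∈ C ∧ (false, v) ∈ C)) (v : ν) :
    ld J (true, v) + ld J (false, v) ≤ J.card := by
  unfold ld
  rw [← Finset.card_union_of_disjoint]
  · exact Finset.card_le_card (Finset.union_subset (Finset.filter_subset _ _)
      (Finset.filter_subset _ _))
  · rw [Finset.disjoint_left]
    intro C h1 h2
    rw [Finset.mem_filter] at h1 h2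
    exact taut C h1.1 v ⟨h1.2, h2.2⟩

theorem ld_Ga {J : Finset (List (Bool × ν))} {V : Finset ν} {l : Bool × ν} (hl : l.2 ∈ V) :
    ld (Ga J V) l = ld J l := by
  unfold ld
  congr 1
  ext C
  simp only [Finset.mem_filter, mem_Ga]
  constructor
  · rintro ⟨⟨h1, _⟩, h2⟩; exact ⟨h1, h2⟩
  · rintro ⟨h1, h2⟩; exact ⟨⟨h1, l.2, hl, occ_iff.2 ⟨l, h2, rfl⟩⟩, h2⟩

theorem Ga_Ga {J : Finset (List (Bool × ν))} {V X : Finset ν} (h : X ⊆ V) :
    Ga (Ga J V) X = Ga J X := by
  ext C
  simp only [mem_Ga]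
  constructor
  · rintro ⟨⟨h1, _⟩, h2⟩; exact ⟨h1, h2⟩
  · rintro ⟨h1, w, hw, h2⟩; exact ⟨⟨h1, w, h hw, h2⟩, w, hw, h2⟩

section Step

variable {J : Finset (List (Bool × ν))} {V V1 : Finset ν} {k : ℕ} {v : ν} {e : Bool}

theorem step_card (hI : Inv J V k) (hv : v ∈ V1) (hV1 : V1 ⊆ V)
    (ht : (Ga J V1).card ≤ V1.card + k) : (Ga J V1).card = V1.card + k :=
  le_antisymm ht (hI.sur V1 hV1 ⟨v, hv⟩)

theorem step_deg (hI : Inv J V k) (hv : v ∈ V1) (hV1 : V1 ⊆ V)
    (he : ld (Ga J V1) (!e, v) ≤ ld (Ga J V1) (e, v)) : nM k < 2 * ld (Ga J V1) (e, v) := by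
  have h1 := hI.deg v (hV1 hv)
  rw [← ld_Ga (V := V1) (l := (true, v)) hv, ← ld_Ga (V := V1) (l := (false, v)) hv] at h1
  cases e
  · simp only [Bool.not_false] at he
    omega
  · simp only [Bool.not_true] at he
    omega

/-- The outside part is matched. -/
theorem step_outside (hI : Inv J V k) (hv : v ∈ V1) (hV1 : V1 ⊆ V) :
    Mat (J \ Ga J V1) (V \ V1) := by
  classical
  apply Mat.of_hall v
  intro Q hQ
  set N := (V \ V1).filter (fun w => ∃ C ∈ Q, occ w C = true) with hN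
  have hNV : N ⊆ V := (Finset.filter_subset _ _).trans Finset.sdiff_subset
  have h1 : (V \ N).Nonempty := ⟨v, Finset.mem_sdiff.2 ⟨hV1 hv, fun h => by
    rw [hN, Finset.mem_filter, Finset.mem_sdiff] at h
    exact h.1.2 hv⟩⟩
  have h2 := hI.sur (V \ N) Finset.sdiff_subset h1
  have hQJ : Q ⊆ J := hQ.trans Finset.sdiff_subset
  have h3 : Ga J (V \ N) ⊆ J \ Q := by
    intro C hC
    rw [mem_Ga] at hC
    obtain ⟨hCJ, w, hw, hwC⟩ := hC
    rw [Finset.mem_sdiff] at hw ⊢
    refine ⟨hCJ, fun hCQ => ?_⟩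
    by_cases hw1 : w ∈ V1
    · exact (Finset.mem_sdiff.1 (hQ hCQ)).2 (mem_Ga.2 ⟨hCJ, w, hw1, hwC⟩)
    · exact hw.2 (Finset.mem_filter.2 ⟨Finset.mem_sdiff.2 ⟨hw.1, hw1⟩, C, hCQ, hwC⟩)
  have h4 := Finset.card_le_card h3
  rw [Finset.card_sdiff_of_subset hQJ] at h4
  rw [Finset.card_sdiff_of_subset hNV] at h2
  have h5 := hI.card
  have h6 := Finset.card_le_card hQJ
  have h7 := Finset.card_le_card hNV
  omega

/-- Surplus after the step. -/
theorem step_sur (hI : Inv J V k) (hV1 : V1 ⊆ V)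
    (hmin : ∀ X ⊆ V1, X.Nonempty → (Ga J X).card ≤ X.card + k → v ∈ X)
    {X : Finset ν} (hX : X ⊆ V1.erase v) (hXne : X.Nonempty) :
    X.card + (k + 1) ≤ (Ga ((Ga J V1).filter (fun C => (e, v) ∉ C)) X).card +
      ld (Ga J V1) (e, v) := by
  have hXV1 : X ⊆ V1 := hX.trans (Finset.erase_subset _ _)
  have h1 := hI.sur X (hXV1.trans hV1) hXne
  have h2 : ¬ (Ga J X).card ≤ X.card + k := fun h =>
    (Finset.mem_erase.1 (hX (hmin X hXV1 hXne h))).1 rfl
  have h3 : Ga J X ⊆ Ga ((Ga J V1).filter (fun C => (e, v) ∉ C)) X ∪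
      (Ga J V1).filter (fun C => (e, v) ∈ C) := by
    rw [← Ga_Ga hXV1]
    intro C hC
    rw [mem_Ga] at hC
    rw [Finset.mem_union]
    by_cases h : (e, v) ∈ C
    · exact Or.inr (Finset.mem_filter.2 ⟨hC.1, h⟩)
    · exact Or.inl (mem_Ga.2 ⟨Finset.mem_filter.2 ⟨hC.1, h⟩, hC.2⟩)
  have h4 := (Finset.card_le_card h3).trans (Finset.card_union_le _ _)
  unfold ld
  omega

theorem step_J (hI : Inv J V k) (hv : v ∈ V1) (hV1 : V1 ⊆ V)
    (ht : (Ga J V1).card ≤ V1.card + k) :
    ((Ga J V1).filter (fun C => (e, v) ∉ C)).card + ld (Ga J V1) (e, v) =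
      (V1.erase v).card + (k + 1) := by
  have h1 := step_card hI hv hV1 ht
  have h2 := Finset.card_filter_add_card_filter_not (s := Ga J V1) (fun C => (e, v) ∈ C)
  have h3 := Finset.card_erase_add_one hv
  unfold ld
  omega

/-- The invariant is preserved. -/
theorem step_inv (hI : Inv J V k) (hv : v ∈ V1) (hV1 : V1 ⊆ V)
    (ht : (Ga J V1).card ≤ V1.card + k)
    (hmin : ∀ X ⊆ V1, X.Nonempty → (Ga J X).card ≤ X.card + k → v ∈ X)
    (he : ld (Ga J V1) (!e, v) ≤ ld (Ga J V1) (e, v)) (hik : ld (Ga J V1) (e, v) ≤ k) :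
    Inv ((Ga J V1).filter (fun C => (e, v) ∉ C)) (V1.erase v) (k + 1 - ld (Ga J V1) (e, v)) := by
  have hd := step_deg hI hv hV1 he
  have hJ := step_J (e := e) hI hv hV1 ht
  have hc := step_card hI hv hV1 ht
  refine ⟨by omega, ?_, by omega, ?_, ?_, ?_⟩
  · rw [Finset.nonempty_iff_ne_empty]
    intro h0
    rw [h0] at hJ
    have h3 := Finset.card_erase_add_one hv
    rw [h0] at h3
    simp only [Finset.card_empty] at h3
    have h1 := deg_le_card (J := Ga J V1) (fun C hC => hI.taut C (Ga_sub _ _ hC)) v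
    have h2 := hI.deg v (hV1 hv)
    rw [← ld_Ga (V := V1) (l := (true, v)) hv, ← ld_Ga (V := V1) (l := (false, v)) hv] at h2
    have h4 := lt_nM hI.hk
    omega
  · intro X hX hXne
    have := step_sur (e := e) hI hV1 hmin hX hXne
    omega
  · intro w hw
    have hwV1 : w ∈ V1 := Finset.mem_of_mem_erase hw
    have h1 := hI.deg w (hV1 hwV1)
    rw [← ld_Ga (V := V1) (l := (true, w)) hwV1, ← ld_Ga (V := V1) (l := (false, w)) hwV1] at h1
    have h2 := nM_step hI.hk hik hd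
    -- the degree of w drops by at most i
    have h3 : ld (Ga J V1) (true, w) + ld (Ga J V1) (false, w) ≤
        (ld ((Ga J V1).filter (fun C => (e, v) ∉ C)) (true, w) +
          ld ((Ga J V1).filter (fun C => (e, v) ∉ C)) (false, w)) + ld (Ga J V1) (e, v) := by
      have h4 := deg_le_card (J := (Ga J V1).filter (fun C => (e, v) ∈ C))
        (fun C hC => hI.taut C (Ga_sub _ _ (Finset.mem_of_mem_filter _ hC))) w
      have h5 : ∀ l : Bool × ν, ld (Ga J V1) l =
          ld ((Ga J V1).filter (fun C => (e, v) ∈ C)) l +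
            ld ((Ga J V1).filter (fun C => (e, v) ∉ C)) l := by
        intro l
        unfold ld
        rw [Finset.filter_comm, Finset.filter_comm (fun C => (e, v) ∉ C)]
        exact (Finset.card_filter_add_card_filter_not _).symm
      have h6 := h5 (true, w)
      have h7 := h5 (false, w)
      have h8 : ((Ga J V1).filter (fun C => (e, v) ∈ C)).card = ld (Ga J V1) (e, v) := rfl
      omega
    omega
  · intro C hC
    exact hI.taut C (Ga_sub _ _ (Finset.mem_of_mem_filter _ hC))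

/-- The end of the procedure. -/
theorem step_end (hI : Inv J V k) (hv : v ∈ V1) (hV1 : V1 ⊆ V)
    (ht : (Ga J V1).card ≤ V1.card + k)
    (hmin : ∀ X ⊆ V1, X.Nonempty → (Ga J X).card ≤ X.card + k → v ∈ X)
    (hik : k < ld (Ga J V1) (e, v)) :
    Mat ((Ga J V1).filter (fun C => (e, v) ∉ C)) (V1.erase v) := by
  classical
  apply Mat.of_hall v
  intro Q hQ
  set V' := V1.erase v with hV'
  set J' := (Ga J V1).filter (fun C => (e, v) ∉ C) with hJ'
  set N := V'.filter (fun w => ∃ C ∈ Q, occ w C = true) with hN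
  have hNV : N ⊆ V' := Finset.filter_subset _ _
  have hJ := step_J (e := e) hI hv hV1 ht
  rw [← hV', ← hJ'] at hJ
  have h6 := Finset.card_le_card hQ
  by_cases hne : (V' \ N).Nonempty
  · have h2 := step_sur (e := e) hI hV1 hmin (X := V' \ N) Finset.sdiff_subset hne
    rw [← hJ'] at h2
    have h3 : Ga J' (V' \ N) ⊆ J' \ Q := by
      intro C hC
      rw [mem_Ga] at hC
      obtain ⟨hCJ, w, hw, hwC⟩ := hC
      rw [Finset.mem_sdiff] at hw ⊢
      exact ⟨hCJ, fun hCQ => hw.2 (Finset.mem_filter.2 ⟨hw.1, C, hCQ, hwC⟩)⟩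
    have h4 := Finset.card_le_card h3
    rw [Finset.card_sdiff_of_subset hQ] at h4
    rw [Finset.card_sdiff_of_subset hNV] at h2
    have h7 := Finset.card_le_card hNV
    omega
  · rw [Finset.not_nonempty_iff_eq_empty, Finset.sdiff_eq_empty_iff_subset] at hne
    have h7 := Finset.card_le_card hne
    omega

end Step

end Pool.Agent.Helper80.Aut
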