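import Mathlib

/-!
# A simple bipartite matching procedure on lists

The graph is given by a duplicate free list `A` of left vertices and a list `E` of edges.
-/

namespace Pool.Agent.Helper80.Aut

variable {β γ : Type} [DecidableEq β] [DecidableEq γ]

/-- unmatched left vertices -/
def base (A : List β) (M : List (β × γ)) : List β :=
  A.filter (fun a => M.all (fun m => decide (m.1 ≠ a)))

/-- one round of alternating search -/
def reachStep (A : List β) (E M : List (β × γ)) (R : List β) : List β :=
  A.filter (fun a => decide (a ∈ R) || M.any (fun m => decide (m.1 = a) &&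
    E.any (fun e => decide (e.2 = m.2) && decide (e.1 ∈ R))))

/-- left vertices reachable in `i` rounds -/
def reach (A : List β) (E M : List (β × γ)) (i : ℕ) : List β :=
  (reachStep A E M)^[i] (base A M)

/-- `e` leads from a vertex reachable in `i` rounds to an unmatched right vertex -/
def good (A : List β) (E M : List (β × γ)) (i : ℕ) (e : β × γ) : Bool :=
  decide (e.1 ∈ reach A E M i) && M.all (fun m => decide (m.2 ≠ e.2))

/-- the first level with a good edge -/
def lvl (A : List β) (E M : List (β × γ)) : Option ℕ :=
  (List.range (A.length + 2)).find? (fun i => E.any (good A E M i))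

/-- the edge used for the next modification -/
def cand (A : List β) (E M : List (β × γ)) : Option (β × γ) :=
  (lvl A E M).bind (fun i => E.find? (good A E M i))

/-- the modification of the matching -/
def upd (E M : List (β × γ)) (e : β × γ) : List (β × γ) :=
  E.filter (fun e' => decide (e' = e) || (decide (e' ∈ M) && decide (e'.1 ≠ e.1)))

/-- one step of the matching procedure -/
def step (A : List β) (E M : List (β × γ)) : List (β × γ) :=
  (cand A E M).elim M (fun e => upd E M e)

/-- the matching procedure -/
def run (A : List β) (E : List (β × γ)) : List (β × γ) :=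
  (step A E)^[(A.length + 3) * (A.length + 3)] []

/-- the set of left vertices reachable at the end -/
def viol (A : List β) (E : List (β × γ)) : List β := reach A E (run A E) A.length

/-- being a matching -/
structure IsM (E M : List (β × γ)) : Prop where
  sub : ∀ m ∈ M, m ∈ E
  inj1 : ∀ m ∈ M, ∀ m' ∈ M, m.1 = m'.1 → m = m'
  inj2 : ∀ m ∈ M, ∀ m' ∈ M, m.2 = m'.2 → m = m'

omit [DecidableEq γ] in
theorem mem_base {A : List β} {M : List (β × γ)} {a : β} :
    a ∈ base A M ↔ a ∈ A ∧ ∀ m ∈ M, m.1 ≠ a := by
  simp [base]

theorem mem_reachStep {A : List β} {E M : List (β × γ)} {R : List β} {a : β} :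
    a ∈ reachStep A E M R ↔ a ∈ A ∧ (a ∈ R ∨ ∃ m ∈ M, m.1 = a ∧ ∃ e ∈ E, e.2 = m.2 ∧ e.1 ∈ R) := by
  simp only [reachStep, List.mem_filter, Bool.or_eq_true, decide_eq_true_eq, List.any_eq_true,
    Bool.and_eq_true]

theorem reach_zero (A : List β) (E M : List (β × γ)) : reach A E M 0 = base A M := rfl

theorem reach_succ (A : List β) (E M : List (β × γ)) (i : ℕ) :
    reach A E M (i + 1) = reachStep A E M (reach A E M i) := by
  unfold reach
  rw [Function.iterate_succ_apply']

theorem reach_sub (A : List β) (E M : List (β × γ)) (i : ℕ) {a : β} (h : a ∈ reach A E M i) :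
    a ∈ A := by
  cases i with
  | zero => rw [reach_zero] at h; exact (mem_base.1 h).1
  | succ i => rw [reach_succ] at h; exact (mem_reachStep.1 h).1

theorem reach_mono_succ (A : List β) (E M : List (β × γ)) (i : ℕ) {a : β}
    (h : a ∈ reach A E M i) : a ∈ reach A E M (i + 1) := by
  rw [reach_succ]
  exact mem_reachStep.2 ⟨reach_sub A E M i h, Or.inl h⟩

theorem reach_mono (A : List β) (E M : List (β × γ)) {i j : ℕ} (hij : i ≤ j) {a : β}
    (h : a ∈ reach A E M i) : a ∈ reach A E M j := by
  induction j, hij using Nat.le_induction with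
  | base => exact h
  | succ j _ ih => exact reach_mono_succ A E M j ih

theorem good_iff {A : List β} {E M : List (β × γ)} {i : ℕ} {e : β × γ} :
    good A E M i e = true ↔ e.1 ∈ reach A E M i ∧ ∀ m ∈ M, m.2 ≠ e.2 := by
  simp [good]

theorem mem_upd {E M : List (β × γ)} {e e' : β × γ} :
    e' ∈ upd E M e ↔ e' ∈ E ∧ (e' = e ∨ (e' ∈ M ∧ e'.1 ≠ e.1)) := by
  simp [upd]

/-- properties of the candidate edge -/
theorem cand_some {A : List β} {E M : List (β × γ)} {e : β × γ} (h : cand A E M = some e) :
    ∃ i, i ≤ A.length + 1 ∧ lvl A E M = some i ∧ e ∈ E ∧ good A E M i e = true ∧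
      ∀ j < i, ∀ e' ∈ E, good A E M j e' = false := by
  unfold cand at h
  rw [Option.bind_eq_some_iff] at h
  obtain ⟨i, hi, he⟩ := h
  have hi' := hi
  unfold lvl at hi
  rw [List.find?_range_eq_some] at hi
  obtain ⟨_, h2, h3⟩ := hi
  refine ⟨i, by rw [List.mem_range] at h2; omega, hi', List.mem_of_find?_eq_some he,
    List.find?_some he, ?_⟩
  intro j hj e' he'
  have := h3 j hj
  simp only [Bool.not_eq_true', List.any_eq_false] at this
  simpa using this e' he'

theorem cand_none {A : List β} {E M : List (β × γ)} (h : cand A E M = none) :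
    ∀ j ≤ A.length + 1, ∀ e ∈ E, good A E M j e = false := by
  unfold cand at h
  rw [Option.bind_eq_none_iff] at h
  intro j hj e he
  cases hl : lvl A E M with
  | none =>
    unfold lvl at hl
    rw [List.find?_eq_none] at hl
    have := hl j (List.mem_range.2 (by omega))
    simp only [Bool.not_eq_true, List.any_eq_false] at this
    simpa using this e he
  | some i =>
    have h1 := h i hl
    unfold lvl at hl
    rw [List.find?_range_eq_some] at hl
    obtain ⟨h2, _, _⟩ := hl
    rw [List.find?_eq_none] at h1
    rw [List.any_eq_true] at h2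
    obtain ⟨e', he', h3⟩ := h2
    exact absurd h3 (h1 e' he')

theorem IsM.upd {A : List β} {E M : List (β × γ)} (hM : IsM E M) {e : β × γ}
    (hfree : ∀ m ∈ M, m.2 ≠ e.2) : IsM E (upd E M e) := by
  constructor
  · intro m hm
    exact (mem_upd.1 hm).1
  · intro m hm m' hm' h
    rcases (mem_upd.1 hm).2 with rfl | ⟨h1, h2⟩ <;> rcases (mem_upd.1 hm').2 with rfl | ⟨h3, h4⟩
    · rfl
    · exact absurd h.symm h4
    · exact absurd h h2
    · exact hM.inj1 m h1 m' h3 h
  · intro m hm m' hm' h
    rcases (mem_upd.1 hm).2 with rfl | ⟨h1, h2⟩ <;> rcases (mem_upd.1 hm').2 with rfl | ⟨h3, h4⟩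
    · rfl
    · exact absurd h.symm (hfree m' h3)
    · exact absurd h (hfree m h1)
    · exact hM.inj2 m h1 m' h3 h

theorem IsM.step {A : List β} {E M : List (β × γ)} (hM : IsM E M) : IsM E (step A E M) := by
  unfold Aut.step
  cases h : cand A E M with
  | none => exact hM
  | some e =>
    obtain ⟨i, _, _, _, h3, _⟩ := cand_some h
    exact hM.upd (A := A) (good_iff.1 h3).2

theorem isM_nil (E : List (β × γ)) : IsM E [] := ⟨by simp, by simp, by simp⟩

theorem isM_iterate (A : List β) (E : List (β × γ)) (n : ℕ) : IsM E ((step A E)^[n] []) := by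
  induction n with
  | zero => exact isM_nil E
  | succ n ih => rw [Function.iterate_succ_apply']; exact ih.step

/-- potential -/
def pot (A : List β) (E M : List (β × γ)) : ℕ :=
  (base A M).length * (A.length + 3) + (lvl A E M).getD (A.length + 2)

theorem lvl_le {A : List β} {E M : List (β × γ)} {i : ℕ} (hi : i ≤ A.length + 1) {e : β × γ}
    (he : e ∈ E) (hg : good A E M i e = true) : (lvl A E M).getD (A.length + 2) ≤ i := by
  cases hl : lvl A E M with
  | none =>
    unfold lvl at hl
    rw [List.find?_eq_none] at hl
    have := hl i (List.mem_range.2 (by omega))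
    simp only [Bool.not_eq_true, List.any_eq_false] at this
    exact absurd hg (by rw [this e he]; simp)
  | some j =>
    unfold lvl at hl
    rw [List.find?_range_eq_some] at hl
    obtain ⟨_, _, h3⟩ := hl
    by_contra hlt
    simp only [Option.getD_some, not_le] at hlt
    have := h3 i hlt
    simp only [Bool.not_eq_true', List.any_eq_false] at this
    exact absurd hg (this e he)

theorem lvl_le' (A : List β) (E M : List (β × γ)) : (lvl A E M).getD (A.length + 2) ≤ A.length + 2 := by
  cases hl : lvl A E M with
  | none => simp
  | some j =>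
    unfold lvl at hl
    rw [List.find?_range_eq_some] at hl
    have := List.mem_range.1 hl.2.1
    simp only [Option.getD_some]
    omega

theorem pot_lt {A : List β} (hA : A.Nodup) {E M : List (β × γ)} (hM : IsM E M) {e : β × γ}
    (h : cand A E M = some e) : pot A E (upd E M e) < pot A E M := by
  obtain ⟨i, hi, hl, he, hg, hmin⟩ := cand_some h
  obtain ⟨hg1, hg2⟩ := good_iff.1 hg
  have heu : e ∈ upd E M e := mem_upd.2 ⟨he, Or.inl rfl⟩
  -- the domain grows
  have hdom : ∀ m ∈ M, ∃ m' ∈ upd E M e, m'.1 = m.1 := by
    intro m hm
    by_cases hme : m.1 = e.1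
    · exact ⟨e, heu, hme.symm⟩
    · exact ⟨m, mem_upd.2 ⟨hM.sub m hm, Or.inr ⟨hm, hme⟩⟩, rfl⟩
  have hsub : ∀ a ∈ base A (upd E M e), a ∈ base A M := by
    intro a ha
    rw [mem_base] at ha ⊢
    refine ⟨ha.1, ?_⟩
    rintro m hm rfl
    obtain ⟨m', hm', h'⟩ := hdom m hm
    exact ha.2 m' hm' h'
  have hnd1 : (base A (upd E M e)).Nodup := hA.filter _
  have hnd2 : (base A M).Nodup := hA.filter _
  unfold pot
  cases i with
  | zero =>
    have h1 : e.1 ∈ base A M := by rw [reach_zero] at hg1; exact hg1
    have h2 : e.1 ∉ base A (upd E M e) := by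
      rw [mem_base]
      rintro ⟨_, h3⟩
      exact h3 e heu rfl
    have h3 : (base A (upd E M e)).length < (base A M).length := by
      have h4 : (e.1 :: base A (upd E M e)).Nodup := List.nodup_cons.2 ⟨h2, hnd1⟩
      have h5 : (e.1 :: base A (upd E M e)) ⊆ base A M := by
        intro a ha
        rcases List.mem_cons.1 ha with rfl | ha
        · exact h1
        · exact hsub a ha
      have := (h4.subperm h5).length_le
      simpa using this
    have h4 := lvl_le' A E (upd E M e)
    nlinarith
  | succ i =>
    have h3 : (base A (upd E M e)).length ≤ (base A M).length :=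
      (hnd1.subperm (fun a ha => hsub a ha)).length_le
    have hni : ∀ j ≤ i, e.1 ∉ reach A E M j := by
      intro j hj hmem
      have := hmin j (by omega) e he
      rw [← Bool.not_eq_true, good_iff] at this
      exact this ⟨hmem, hg2⟩
    -- the matched edge at e.1
    rw [reach_succ, mem_reachStep] at hg1
    obtain ⟨hA1, h5 | ⟨m, hm, hme, e1, he1, he1m, he1r⟩⟩ := hg1
    · exact absurd h5 (hni i le_rfl)
    -- earlier levels survive
    have hr : ∀ j ≤ i, ∀ a ∈ reach A E M j, a ∈ reach A E (upd E M e) j := by
      intro j
      induction j with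
      | zero =>
        intro _ a ha
        rw [reach_zero] at ha ⊢
        rw [mem_base] at ha ⊢
        refine ⟨ha.1, ?_⟩
        intro m' hm' hma
        rcases (mem_upd.1 hm').2 with h6 | ⟨h6, _⟩
        · subst h6
          exact ha.2 m hm (hme.trans hma)
        · exact ha.2 m' h6 hma
      | succ j ih =>
        intro hj a ha
        have hane : a ≠ e.1 := by
          rintro rfl
          exact hni _ hj ha
        rw [reach_succ, mem_reachStep] at ha ⊢
        refine ⟨ha.1, ?_⟩
        rcases ha.2 with h6 | ⟨m', hm', hma, e', he', h7, h8⟩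
        · exact Or.inl (ih (by omega) a h6)
        · refine Or.inr ⟨m', mem_upd.2 ⟨hM.sub m' hm', Or.inr ⟨hm', ?_⟩⟩, hma, e', he', h7,
            ih (by omega) _ h8⟩
          rw [hma]; exact hane
    have h6 : good A E (upd E M e) i e1 = true := by
      rw [good_iff]
      refine ⟨hr i le_rfl _ he1r, ?_⟩
      intro m' hm' h7
      rcases (mem_upd.1 hm').2 with h8 | ⟨h8, h9⟩
      · subst h8
        exact hg2 m hm (he1m.symm.trans h7.symm)
      · have := hM.inj2 m' h8 m hm (h7.trans he1m)
        subst this
        exact h9 hme
    have h7 := lvl_le (by omega) he1 h6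
    rw [hl]
    simp only [Option.getD_some]
    have h8 : (base A (upd E M e)).length * (A.length + 3) ≤ (base A M).length * (A.length + 3) :=
      Nat.mul_le_mul_right _ h3
    omega

theorem run_stable {A : List β} (hA : A.Nodup) (E : List (β × γ)) : cand A E (run A E) = none := by
  have key : ∀ n, cand A E ((step A E)^[n] []) = none ∨
      pot A E ((step A E)^[n] []) + n ≤ pot A E [] := by
    intro n
    induction n with
    | zero => right; simp
    | succ n ih =>
      rw [Function.iterate_succ_apply']
      rcases ih with ih | ih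
      · left
        rw [show step A E ((step A E)^[n] []) = (step A E)^[n] [] by
          conv_lhs => rw [step]
          rw [ih]; rfl]
        exact ih
      · cases h : cand A E ((step A E)^[n] []) with
        | none =>
          left
          rw [show step A E ((step A E)^[n] []) = (step A E)^[n] [] by
            conv_lhs => rw [step]
            rw [h]; rfl]
          exact h
        | some e =>
          right
          rw [show step A E ((step A E)^[n] []) = upd E ((step A E)^[n] []) e by
            conv_lhs => rw [step]
            rw [h]; rfl]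
          have := pot_lt hA (isM_iterate A E n) h
          omega
  rcases key ((A.length + 3) * (A.length + 3)) with h | h
  · exact h
  · exfalso
    have h1 : pot A E [] ≤ A.length * (A.length + 3) + (A.length + 2) := by
      unfold pot
      have h2 : (base A ([] : List (β × γ))).length ≤ A.length := List.length_filter_le _ _
      have h3 := lvl_le' A E []
      have h4 : (base A ([] : List (β × γ))).length * (A.length + 3) ≤ A.length * (A.length + 3) :=
        Nat.mul_le_mul_right _ h2
      omega
    have h5 : (A.length + 3) * (A.length + 3) = A.length * (A.length + 3) + 3 * (A.length + 3) := by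
      ring
    omega

theorem reach_stable {A : List β} (hA : A.Nodup) (E M : List (β × γ)) {a : β}
    (h : a ∈ reach A E M (A.length + 1)) : a ∈ reach A E M A.length := by
  -- some level is stable
  have h1 : ∃ i ≤ A.length, (reach A E M (i + 1)).toFinset = (reach A E M i).toFinset := by
    by_contra hcon
    push Not at hcon
    have h2 : ∀ i ≤ A.length + 1, i ≤ (reach A E M i).toFinset.card := by
      intro i
      induction i with
      | zero => intro _; omega
      | succ i ih =>
        intro hi
        have h3 : (reach A E M i).toFinset ⊂ (reach A E M (i + 1)).toFinset := by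
          refine Finset.ssubset_iff_subset_ne.2 ⟨?_, fun h => hcon i (by omega) h.symm⟩
          intro x hx
          rw [List.mem_toFinset] at hx ⊢
          exact reach_mono_succ A E M i hx
        have h4 := Finset.card_lt_card h3
        have h5 := ih (by omega)
        omega
    have h3 := h2 (A.length + 1) le_rfl
    have h4 : (reach A E M (A.length + 1)).toFinset.card ≤ A.length := by
      have h5 : (reach A E M (A.length + 1)).toFinset ⊆ A.toFinset := by
        intro x hx
        rw [List.mem_toFinset] at hx ⊢
        exact reach_sub A E M _ hx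
      exact (Finset.card_le_card h5).trans (List.toFinset_card_le A)
    omega
  obtain ⟨i, hi, he⟩ := h1
  have h2 : ∀ j, i ≤ j → ∀ x, x ∈ reach A E M j → x ∈ reach A E M i := by
    intro j hj
    induction j, hj using Nat.le_induction with
    | base => exact fun x hx => hx
    | succ j hj ih =>
      intro x hx
      rw [reach_succ, mem_reachStep] at hx
      have hx' : x ∈ reach A E M (i + 1) := by
        rw [reach_succ, mem_reachStep]
        refine ⟨hx.1, ?_⟩
        rcases hx.2 with h | ⟨m, hm, h1, e, he, h3, h4⟩
        · exact Or.inl (ih x h)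
        · exact Or.inr ⟨m, hm, h1, e, he, h3, ih _ h4⟩
      rw [← List.mem_toFinset, he, List.mem_toFinset] at hx'
      exact hx'
  exact reach_mono A E M hi (h2 (A.length + 1) (by omega) a h)

/-- Main property: either everything is matched or we get a Hall violator. -/
theorem run_spec {A : List β} (hA : A.Nodup) {E : List (β × γ)} (hE : ∀ e ∈ E, e.1 ∈ A) :
    IsM E (run A E) ∧ ((∀ a ∈ A, ∃ m ∈ run A E, m.1 = a) ∨
      ((viol A E ⊆ A) ∧
        ((E.filter (fun e => decide (e.1 ∈ viol A E))).map Prod.snd).toFinset.card <
        (viol A E).toFinset.card)) := by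
  have hM : IsM E (run A E) := isM_iterate A E _
  refine ⟨hM, ?_⟩
  by_cases hall : ∀ a ∈ A, ∃ m ∈ run A E, m.1 = a
  · exact Or.inl hall
  right
  refine ⟨fun a ha => reach_sub A E _ _ ha, ?_⟩
  push Not at hall
  obtain ⟨a0, ha0, hna0⟩ := hall
  have hst := run_stable hA E
  have hno := cand_none hst
  set M := run A E with hMdef
  set S := viol A E with hS
  have ha0S : a0 ∈ S := by
    have : a0 ∈ reach A E M 0 := by
      rw [reach_zero, mem_base]
      exact ⟨ha0, fun m hm => hna0 m hm⟩
    exact reach_mono A E M (Nat.zero_le _) this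
  -- each right neighbour is matched to an element of S \ {a0}
  have hnb : ∀ e ∈ E, e.1 ∈ S → ∃ m ∈ M, m.2 = e.2 ∧ m.1 ∈ S ∧ m.1 ≠ a0 := by
    intro e he heS
    have h1 := hno A.length (by omega) e he
    rw [← Bool.not_eq_true, good_iff] at h1
    push Not at h1
    obtain ⟨m, hm, h2⟩ := h1 heS
    refine ⟨m, hm, h2, ?_, fun h => hna0 m hm h⟩
    apply reach_stable hA
    rw [reach_succ, mem_reachStep]
    exact ⟨hE m (hM.sub m hm), Or.inr ⟨m, hm, rfl, e, he, h2.symm, heS⟩⟩
  have hcard : ((E.filter (fun e => decide (e.1 ∈ S))).map Prod.snd).toFinset.card ≤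
      (S.toFinset.erase a0).card := by
    classical
    choose! f hf using hnb
    have key : ∀ y ∈ ((E.filter (fun e => decide (e.1 ∈ S))).map Prod.snd).toFinset,
        ∃ x ∈ S.toFinset.erase a0, ∃ m ∈ M, m.1 = x ∧ m.2 = y := by
      intro y hy
      rw [List.mem_toFinset, List.mem_map] at hy
      obtain ⟨e, he, rfl⟩ := hy
      rw [List.mem_filter, decide_eq_true_eq] at he
      obtain ⟨h1, h2, h3, h4⟩ := hf e he.1 he.2
      exact ⟨(f e).1, Finset.mem_erase.2 ⟨h4, List.mem_toFinset.2 h3⟩, f e, h1, rfl, h2⟩
    haveI : Nonempty β := ⟨a0⟩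
    choose! g hg using key
    refine Finset.card_le_card_of_injOn g (fun y hy => (hg y hy).1) ?_
    intro y hy y' hy' hyy'
    obtain ⟨_, m, hm, hm1, hm2⟩ := hg y hy
    obtain ⟨_, m', hm', hm1', hm2'⟩ := hg y' hy'
    have : m = m' := hM.inj1 m hm m' hm' (by rw [hm1, hm1', hyy'])
    rw [← hm2, ← hm2', this]
  have h5 := Finset.card_erase_lt_of_mem (List.mem_toFinset.2 ha0S)
  omega

end Pool.Agent.Helper80.Aut
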