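import Mathlib
import Pool.Agent.Helper80.Aut.Match
import Pool.Agent.Helper80.Aut.Hall

/-!
# The algorithm
-/

namespace Pool.Agent.Helper80.Aut

section Ded

variable {β : Type}

/-- duplicate removal up to a relation -/
def ded (r : β → β → Bool) (l : List β) : List β :=
  l.foldl (fun acc b => if acc.any (r b) = true then acc else b :: acc) []

theorem ded_aux (r : β → β → Bool) (hr : ∀ b, r b b = true) : ∀ (l acc : List β),
    (acc.Pairwise (fun a b => r a b = false)) →
    ((l.foldl (fun acc b => if acc.any (r b) = true then acc else b :: acc) acc).Pairwise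
      (fun a b => r a b = false)) ∧
    (∀ b ∈ l.foldl (fun acc b => if acc.any (r b) = true then acc else b :: acc) acc,
      b ∈ l ∨ b ∈ acc) ∧
    (∀ b ∈ acc, b ∈ l.foldl (fun acc b => if acc.any (r b) = true then acc else b :: acc) acc) ∧
    (∀ b ∈ l, ∃ c ∈ l.foldl (fun acc b => if acc.any (r b) = true then acc else b :: acc) acc,
      r b c = true) := by
  intro l
  induction l with
  | nil => intro acc h; exact ⟨h, fun b hb => Or.inr hb, fun b hb => hb, by simp⟩
  | cons a l ih =>
    intro acc h
    rw [List.foldl_cons]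
    by_cases ha : acc.any (r a) = true
    · rw [if_pos ha]
      obtain ⟨h1, h2, h3, h4⟩ := ih acc h
      refine ⟨h1, fun b hb => ?_, h3, ?_⟩
      · rcases h2 b hb with h | h
        · exact Or.inl (List.mem_cons_of_mem _ h)
        · exact Or.inr h
      · intro b hb
        rcases List.mem_cons.1 hb with rfl | hb
        · rw [List.any_eq_true] at ha
          obtain ⟨c, hc, hc2⟩ := ha
          exact ⟨c, h3 c hc, hc2⟩
        · exact h4 b hb
    · rw [if_neg ha]
      have h' : (a :: acc).Pairwise (fun a b => r a b = false) := by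
        rw [List.pairwise_cons]
        refine ⟨fun b hb => ?_, h⟩
        rw [← Bool.not_eq_true]
        intro hab
        exact ha (List.any_eq_true.2 ⟨b, hb, hab⟩)
      obtain ⟨h1, h2, h3, h4⟩ := ih (a :: acc) h'
      refine ⟨h1, fun b hb => ?_, fun b hb => h3 b (List.mem_cons_of_mem _ hb), ?_⟩
      · rcases h2 b hb with h | h
        · exact Or.inl (List.mem_cons_of_mem _ h)
        · rcases List.mem_cons.1 h with rfl | h
          · exact Or.inl List.mem_cons_self
          · exact Or.inr h
      · intro b hb
        rcases List.mem_cons.1 hb with rfl | hb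
        · exact ⟨b, h3 b List.mem_cons_self, hr b⟩
        · exact h4 b hb

theorem ded_pairwise (r : β → β → Bool) (hr : ∀ b, r b b = true) (l : List β) :
    (ded r l).Pairwise (fun a b => r a b = false) :=
  (ded_aux r hr l [] List.Pairwise.nil).1

theorem mem_of_mem_ded {r : β → β → Bool} (hr : ∀ b, r b b = true) {l : List β} {b : β}
    (h : b ∈ ded r l) : b ∈ l := by
  rcases (ded_aux r hr l [] List.Pairwise.nil).2.1 b h with h | h
  · exact h
  · simp at h

theorem exists_mem_ded (r : β → β → Bool) (hr : ∀ b, r b b = true) {l : List β} {b : β}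
    (h : b ∈ l) : ∃ c ∈ ded r l, r b c = true :=
  (ded_aux r hr l [] List.Pairwise.nil).2.2.2 b h

theorem ded_nodup (r : β → β → Bool) (hr : ∀ b, r b b = true) (l : List β) : (ded r l).Nodup := by
  refine (ded_pairwise r hr l).imp ?_
  rintro a b h rfl
  rw [hr] at h
  exact absurd h (by simp)

theorem ded_inj {r : β → β → Bool} (hr : ∀ b, r b b = true) (hs : ∀ a b, r a b = r b a)
    {l : List β} {a b : β} (ha : a ∈ ded r l) (hb : b ∈ ded r l) (h : r a b = true) : a = b := by
  by_contra hne
  have : Std.Symm (fun a b => r a b = false) := ⟨fun a b h => (hs b a).trans h⟩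
  have h1 := (ded_pairwise r hr l).forall ha hb hne
  rw [h] at h1
  exact absurd h1 (by simp)

end Ded

variable {ν : Type} [DecidableEq ν]

/-- equality of clauses as sets -/
def same (C D : List (Bool × ν)) : Bool :=
  C.all (fun l => decide (l ∈ D)) && D.all (fun l => decide (l ∈ C))

theorem same_iff {C D : List (Bool × ν)} : same C D = true ↔ ∀ l, l ∈ C ↔ l ∈ D := by
  simp only [same, Bool.and_eq_true, List.all_eq_true, decide_eq_true_eq]
  constructor
  · rintro ⟨h1, h2⟩ l; exact ⟨h1 l, h2 l⟩
  · intro h; exact ⟨fun l => (h l).1, fun l => (h l).2⟩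

/-- the variables of a list of clauses -/
def vars (J : List (List (Bool × ν))) : List ν :=
  ded (fun v w => decide (v = w)) (J.flatMap (fun C => C.map Prod.snd))

theorem mem_vars {J : List (List (Bool × ν))} {v : ν} : v ∈ vars J ↔ ∃ C ∈ J, ∃ l ∈ C, l.2 = v := by
  unfold vars
  constructor
  · intro h
    have := mem_of_mem_ded (by simp) h
    simpa [List.mem_flatMap, List.mem_map] using this
  · rintro ⟨C, hC, l, hl, rfl⟩
    have hmem : l.2 ∈ J.flatMap (fun C => C.map Prod.snd) :=
      List.mem_flatMap.2 ⟨C, hC, List.mem_map_of_mem hl⟩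
    obtain ⟨c, hc, h⟩ := exists_mem_ded (fun v w : ν => decide (v = w)) (by simp) hmem
    simp only [decide_eq_true_eq] at h
    rw [h]
    exact hc

theorem vars_nodup (J : List (List (Bool × ν))) : (vars J).Nodup := ded_nodup _ (by simp) _

/-- clauses touching `X` -/
def nbr (J : List (List (Bool × ν))) (X : List ν) : List (List (Bool × ν)) :=
  J.filter (fun C => C.any (fun l => decide (l.2 ∈ X)))

/-- left vertices of the test graph -/
def lefts (S : List ν) (v : ν) (k : ℕ) : List (ν × ℕ) :=
  S.map (fun w => (w, 0)) ++ (List.range (k + 1)).map (fun t => (v, t + 1))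

/-- edges of the test graph -/
def edges (A : List (ν × ℕ)) (J : List (List (Bool × ν))) :
    List ((ν × ℕ) × List (Bool × ν)) :=
  (A ×ˢ J).filter (fun e => occ e.1.1 e.2)

/-- The test: is there a tight subset of `S` containing the head of `S`? -/
def test (J : List (List (Bool × ν))) (S : List ν) (k : ℕ) : List ν :=
  S.head?.elim [] (fun v => (viol (lefts S v k) (edges (lefts S v k) J)).map Prod.fst)

/-- The shortest suffix passing the test. -/
def found (J : List (List (Bool × ν))) (V : List ν) (k : ℕ) : Option (List ν) :=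
  ((List.range (V.length + 1)).find?
    (fun j => !(test J (V.drop (V.length - j)) k).isEmpty)).map
      (fun j => V.drop (V.length - j))

/-- literal degree -/
def ldl (J : List (List (Bool × ν))) (l : Bool × ν) : ℕ := (J.filter (fun C => decide (l ∈ C))).length

/-- the majority literal -/
def pick (J : List (List (Bool × ν))) (v : ν) : Bool × ν :=
  (decide (ldl J (false, v) ≤ ldl J (true, v)), v)

/-- states of the greedy procedure -/
abbrev St (ν : Type) := List (List (Bool × ν)) × List ν × ℕ × List (Bool × ν)

/-- the change of the state -/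
def gcore (L : List (Bool × ν)) (s : St ν) (X : List ν) (v : ν) : St ν :=
  ((nbr s.1 (s.2.1.filter (fun w => decide (w ∈ X)))).filter
      (fun C => decide (pick (nbr s.1 (s.2.1.filter (fun w => decide (w ∈ X)))) v ∉ C)),
    (s.2.1.filter (fun w => decide (w ∈ X))).filter (fun w => decide (w ≠ v)),
    s.2.2.1 + 1 - ldl (nbr s.1 (s.2.1.filter (fun w => decide (w ∈ X))))
      (pick (nbr s.1 (s.2.1.filter (fun w => decide (w ∈ X)))) v),
    L.filter (fun l => decide (l ∈ s.2.2.2) ||
      decide (l = pick (nbr s.1 (s.2.1.filter (fun w => decide (w ∈ X)))) v)))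

/-- the greedy step -/
def gstep (L : List (Bool × ν)) (s : St ν) : St ν :=
  if s.2.2.1 = 0 then s else
    (found s.1 s.2.1 s.2.2.1).elim s
      (fun S => S.head?.elim s (fun v => gcore L s (test s.1 S s.2.2.1) v))

/-- the edges of the final matching problem -/
def fedges (R : List (List (Bool × ν))) (U : List ν) : List (List (Bool × ν) × ν) :=
  (R ×ˢ U).filter (fun e => occ e.2 e.1)

/-- clauses not satisfied by `G` -/
def rest (J : List (List (Bool × ν))) (G : List (Bool × ν)) : List (List (Bool × ν)) :=
  J.filter (fun C => !(C.any (fun l => decide (l ∈ G))))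

/-- variables not used by `G` -/
def free (V : List ν) (G : List (Bool × ν)) : List ν :=
  V.filter (fun w => !(G.any (fun l => decide (l.2 = w))))

/-- completion of the greedy literals by a matching -/
def finish (J : List (List (Bool × ν))) (V : List ν) (G : List (Bool × ν)) : List (Bool × ν) :=
  G ++ (run (rest J G) (fedges (rest J G) (free V G))).filterMap
    (fun e => e.1.find? (fun l => decide (l.2 = e.2)))

/-- both literals of all variables in the list -/
def allLits (V : List ν) : List (Bool × ν) := V.flatMap (fun v => [(true, v), (false, v)])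

/-- the greedy phase -/
def greedy (J : List (List (Bool × ν))) (V : List ν) (k : ℕ) : St ν :=
  (gstep (allLits V))^[V.length] (J, V, k, [])

/-- the second phase, given the value of the surplus and the suffix containing a tight set -/
def second (J : List (List (Bool × ν))) (V : List ν) (k : ℕ) (S : List ν) : List (Bool × ν) :=
  finish (nbr J (V.filter (fun w => decide (w ∈ test J S k))))
    (V.filter (fun w => decide (w ∈ test J S k)))
    (greedy (nbr J (V.filter (fun w => decide (w ∈ test J S k))))
      (V.filter (fun w => decide (w ∈ test J S k))) k).2.2.2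

/-- the value of the surplus minus one -/
def initK (J : List (List (Bool × ν))) (V : List ν) : Option ℕ :=
  (List.range (J.length + 1)).find? (fun k => (found J V (k + 1)).isSome)

/-- the algorithm for duplicate free lists of clauses -/
def algo (J : List (List (Bool × ν))) : List (Bool × ν) :=
  (initK J (vars J)).elim [] (fun k => (found J (vars J) (k + 1)).elim []
    (fun S => second J (vars J) (k + 1) S))

/-! ### The test -/

theorem lefts_nodup {S : List ν} (hS : S.Nodup) (v : ν) (k : ℕ) : (lefts S v k).Nodup := by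
  unfold lefts
  rw [List.nodup_append]
  refine ⟨hS.map (fun a b h => (Prod.mk.inj h).1), ?_, ?_⟩
  · exact List.nodup_range.map (fun a b h => by simpa using h)
  · intro a ha b hb hab
    subst hab
    rw [List.mem_map] at ha hb
    obtain ⟨w, _, rfl⟩ := ha
    obtain ⟨t, _, h⟩ := hb
    simp at h

theorem mem_edges {A : List (ν × ℕ)} {J : List (List (Bool × ν))}
    {e : (ν × ℕ) × List (Bool × ν)} :
    e ∈ edges A J ↔ e.1 ∈ A ∧ e.2 ∈ J ∧ occ e.1.1 e.2 = true := by
  unfold edges
  rw [List.mem_filter]
  obtain ⟨a, C⟩ := e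
  rw [List.mem_product]
  exact and_assoc

theorem mem_lefts {S : List ν} {v : ν} {k : ℕ} {a : ν × ℕ} :
    a ∈ lefts S v k ↔ (a.1 ∈ S ∧ a.2 = 0) ∨ (a.1 = v ∧ 1 ≤ a.2 ∧ a.2 ≤ k + 1) := by
  obtain ⟨w, t⟩ := a
  unfold lefts
  rw [List.mem_append, List.mem_map, List.mem_map]
  simp only [List.mem_range, Prod.mk.injEq]
  constructor
  · rintro (⟨a, ha, rfl, rfl⟩ | ⟨a, ha, rfl, rfl⟩)
    · exact Or.inl ⟨ha, rfl⟩
    · exact Or.inr ⟨rfl, by omega, by omega⟩
  · rintro (⟨ha, rfl⟩ | ⟨rfl, h1, h2⟩)
    · exact Or.inl ⟨w, ha, rfl, rfl⟩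
    · exact Or.inr ⟨t - 1, by omega, rfl, by omega⟩

/-- If everything is matched then the violator is empty. -/
theorem viol_nil {β γ : Type} [DecidableEq β] [DecidableEq γ] {A : List β} {E : List (β × γ)}
    (h : ∀ a ∈ A, ∃ m ∈ run A E, m.1 = a) : viol A E = [] := by
  have h1 : ∀ i, reach A E (run A E) i = [] := by
    intro i
    induction i with
    | zero =>
      rw [reach_zero, List.eq_nil_iff_forall_not_mem]
      intro a ha
      rw [mem_base] at ha
      obtain ⟨m, hm, h2⟩ := h a ha.1
      exact ha.2 m hm h2
    | succ i ih =>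
      rw [reach_succ, List.eq_nil_iff_forall_not_mem]
      intro a ha
      rw [mem_reachStep, ih] at ha
      rcases ha.2 with h2 | ⟨_, _, _, _, _, _, h3⟩
      · simp at h2
      · simp at h3
  exact h1 _

theorem test_cons (J : List (List (Bool × ν))) (v : ν) (S : List ν) (k : ℕ) :
    test J (v :: S) k =
      (viol (lefts (v :: S) v k) (edges (lefts (v :: S) v k) J)).map Prod.fst := rfl

theorem test_pos {J : List (List (Bool × ν))} {v : ν} {S : List ν}
    (hS : (v :: S).Nodup) {k : ℕ} (h : test J (v :: S) k ≠ []) :
    (test J (v :: S) k).toFinset ⊆ (v :: S).toFinset ∧ (test J (v :: S) k).toFinset.Nonempty ∧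
    (Ga J.toFinset (test J (v :: S) k).toFinset).card <
      (test J (v :: S) k).toFinset.card +
        (if v ∈ (test J (v :: S) k).toFinset then k + 1 else 0) := by
  set A := lefts (v :: S) v k with hA
  set E := edges A J with hE
  have hAn : A.Nodup := lefts_nodup hS v k
  have hEA : ∀ e ∈ E, e.1 ∈ A := fun e he => (mem_edges.1 he).1
  have ht : test J (v :: S) k = (viol A E).map Prod.fst := test_cons J v S k
  obtain ⟨_, h1⟩ := run_spec hAn hEA
  rcases h1 with h1 | ⟨h1, h2⟩
  · exact absurd (by rw [ht, viol_nil h1]; rfl) h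
  rw [ht]
  set W := viol A E with hW
  set X := (W.map Prod.fst).toFinset with hX
  have hmX : ∀ a ∈ W, a.1 ∈ X := fun a ha => by
    rw [hX, List.mem_toFinset]; exact List.mem_map_of_mem ha
  refine ⟨?_, ?_, ?_⟩
  · intro w hw
    rw [hX, List.mem_toFinset, List.mem_map] at hw
    obtain ⟨a, ha, rfl⟩ := hw
    rw [List.mem_toFinset]
    rcases mem_lefts.1 (h1 ha) with h3 | h3
    · exact h3.1
    · rw [h3.1]; exact List.mem_cons_self
  · rw [hX, List.toFinset_nonempty_iff]
    intro h3
    rw [ht] at h
    exact h h3
  · have h3 : (Ga J.toFinset X).card < W.toFinset.card := by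
      refine lt_of_le_of_lt (Finset.card_le_card ?_) h2
      intro C hC
      rw [mem_Ga, List.mem_toFinset] at hC
      obtain ⟨hCJ, w, hw, hwC⟩ := hC
      rw [hX, List.mem_toFinset, List.mem_map] at hw
      obtain ⟨a, ha, rfl⟩ := hw
      rw [List.mem_toFinset, List.mem_map]
      exact ⟨(a, C), List.mem_filter.2 ⟨mem_edges.2 ⟨h1 ha, hCJ, hwC⟩, by simpa using ha⟩, rfl⟩
    have h4 : W.toFinset.card ≤ X.card + (if v ∈ X then k + 1 else 0) := by
      have h5 := Finset.card_filter_add_card_filter_not (s := W.toFinset) (fun a => a.2 = 0)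
      have h6 : (W.toFinset.filter (fun a => a.2 = 0)).card ≤ X.card := by
        refine Finset.card_le_card_of_injOn Prod.fst ?_ ?_
        · intro a ha
          rw [Finset.mem_coe, Finset.mem_filter, List.mem_toFinset] at ha
          exact hmX a ha.1
        · intro a ha b hb hab
          rw [Finset.mem_coe, Finset.mem_filter] at ha hb
          exact Prod.ext hab (ha.2.trans hb.2.symm)
      have h7 : (W.toFinset.filter (fun a => ¬ a.2 = 0)).card ≤ (if v ∈ X then k + 1 else 0) := by
        by_cases hne : (W.toFinset.filter (fun a => ¬ a.2 = 0)).Nonempty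
        · obtain ⟨a, ha⟩ := hne
          rw [Finset.mem_filter, List.mem_toFinset] at ha
          have hav : a.1 = v := by
            rcases mem_lefts.1 (h1 ha.1) with h8 | h8
            · exact absurd h8.2 ha.2
            · exact h8.1
          have hvX : v ∈ X := hav ▸ hmX a ha.1
          rw [if_pos hvX]
          calc (W.toFinset.filter (fun a => ¬ a.2 = 0)).card
              ≤ (Finset.Icc 1 (k + 1)).card := by
                refine Finset.card_le_card_of_injOn Prod.snd ?_ ?_
                · intro b hb
                  rw [Finset.mem_coe, Finset.mem_filter, List.mem_toFinset] at hb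
                  rw [Finset.mem_coe, Finset.mem_Icc]
                  rcases mem_lefts.1 (h1 hb.1) with h8 | h8
                  · exact absurd h8.2 hb.2
                  · exact ⟨h8.2.1, h8.2.2⟩
                · intro b hb c hc hbc
                  rw [Finset.mem_coe, Finset.mem_filter, List.mem_toFinset] at hb hc
                  have hb1 : b.1 = v := by
                    rcases mem_lefts.1 (h1 hb.1) with h8 | h8
                    · exact absurd h8.2 hb.2
                    · exact h8.1
                  have hc1 : c.1 = v := by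
                    rcases mem_lefts.1 (h1 hc.1) with h8 | h8
                    · exact absurd h8.2 hc.2
                    · exact h8.1
                  exact Prod.ext (hb1.trans hc1.symm) hbc
            _ = k + 1 := by simp
        · rw [Finset.not_nonempty_iff_eq_empty] at hne
          rw [hne]
          simp
      omega
    omega

theorem test_neg {J : List (List (Bool × ν))} {v : ν} {S : List ν}
    (hS : (v :: S).Nodup) {k : ℕ} (h : test J (v :: S) k = []) (X : Finset ν)
    (hX : X ⊆ (v :: S).toFinset) (hv : v ∈ X) : X.card + (k + 1) ≤ (Ga J.toFinset X).card := by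
  set A := lefts (v :: S) v k with hA
  set E := edges A J with hE
  have hAn : A.Nodup := lefts_nodup hS v k
  have hEA : ∀ e ∈ E, e.1 ∈ A := fun e he => (mem_edges.1 he).1
  have ht : test J (v :: S) k = (viol A E).map Prod.fst := test_cons J v S k
  obtain ⟨hM, h1⟩ := run_spec hAn hEA
  rcases h1 with h1 | ⟨h1, h2⟩
  swap
  · rw [ht, List.map_eq_nil_iff] at h
    rw [h] at h2
    simp at h2
  -- the left vertices of interest
  let T : Finset (ν × ℕ) := X.image (fun w => (w, 0)) ∪ (Finset.Icc 1 (k + 1)).image (fun t => (v, t))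
  have hT : T.card = X.card + (k + 1) := by
    rw [Finset.card_union_of_disjoint, Finset.card_image_of_injective,
      Finset.card_image_of_injective]
    · simp
    · intro a b h; exact (Prod.mk.inj h).2
    · intro a b h; exact (Prod.mk.inj h).1
    · rw [Finset.disjoint_left]
      intro a ha hb
      rw [Finset.mem_image] at ha hb
      obtain ⟨w, _, rfl⟩ := ha
      obtain ⟨t, ht, h⟩ := hb
      rw [Finset.mem_Icc] at ht
      have := (Prod.mk.inj h).2
      omega
  have hTA : ∀ a ∈ T, a ∈ A ∧ a.1 ∈ X := by
    intro a ha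
    rw [Finset.mem_union, Finset.mem_image, Finset.mem_image] at ha
    rcases ha with ⟨w, hw, rfl⟩ | ⟨t, ht, rfl⟩
    · exact ⟨mem_lefts.2 (Or.inl ⟨List.mem_toFinset.1 (hX hw), rfl⟩), hw⟩
    · rw [Finset.mem_Icc] at ht
      exact ⟨mem_lefts.2 (Or.inr ⟨rfl, ht.1, ht.2⟩), hv⟩
  have key : ∀ a ∈ T, ∃ C, C ∈ Ga J.toFinset X ∧ (a, C) ∈ run A E := by
    intro a ha
    obtain ⟨m, hm, rfl⟩ := h1 a (hTA a ha).1
    have h3 := mem_edges.1 (hM.sub m hm)
    exact ⟨m.2, mem_Ga.2 ⟨List.mem_toFinset.2 h3.2.1, m.1.1, (hTA m.1 ha).2, h3.2.2⟩, hm⟩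
  choose! f hf using key
  rw [← hT]
  refine Finset.card_le_card_of_injOn f (fun a ha => (hf a ha).1) ?_
  intro a ha b hb hab
  have h3 := hM.inj2 _ (hf a ha).2 _ (hf b hb).2 hab
  exact (Prod.mk.inj h3).1

end Pool.Agent.Helper80.Aut
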