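import Mathlib
import Pool.Agent.Helper80.Aut.Algo

/-!
# Correctness of the algorithm
-/

namespace Pool.Agent.Helper80.Aut

variable {ν : Type} [DecidableEq ν]

theorem suffix_none {J : List (List (Bool × ν))} {V : List ν} (hV : V.Nodup) {k : ℕ} :
    ∀ S : List ν, S <:+ V → (∀ j ≤ S.length, test J (V.drop (V.length - j)) k = []) →
    ∀ X : Finset ν, X ⊆ S.toFinset → X.Nonempty → X.card + (k + 1) ≤ (Ga J.toFinset X).card := by
  intro S
  induction S with
  | nil =>
    intro _ _ X hX hne
    obtain ⟨x, hx⟩ := hne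
    simpa using hX hx
  | cons v S ih =>
    intro hS h X hX hne
    have hSn : (v :: S).Nodup := hS.sublist.nodup hV
    have hS' : S <:+ V := (List.suffix_cons v S).trans hS
    by_cases hv : v ∈ X
    · refine test_neg hSn ?_ X hX hv
      have h1 := h (v :: S).length le_rfl
      rwa [← List.suffix_iff_eq_drop.1 hS] at h1
    · refine ih hS' (fun j hj => h j (by simp; omega)) X ?_ hne
      intro x hx
      have h1 := hX hx
      rw [List.mem_toFinset, List.mem_cons] at h1
      rw [List.mem_toFinset]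
      rcases h1 with rfl | h1
      · exact absurd hx hv
      · exact h1

theorem found_none {J : List (List (Bool × ν))} {V : List ν} (hV : V.Nodup) {k : ℕ}
    (h : found J V k = none) (X : Finset ν) (hX : X ⊆ V.toFinset) (hne : X.Nonempty) :
    X.card + (k + 1) ≤ (Ga J.toFinset X).card := by
  unfold found at h
  rw [Option.map_eq_none_iff, List.find?_eq_none] at h
  refine suffix_none hV V List.suffix_rfl (fun j hj => ?_) X hX hne
  have h1 := h j (List.mem_range.2 (by omega))
  simpa using h1

theorem found_some {J : List (List (Bool × ν))} {V : List ν} (hV : V.Nodup) {k : ℕ} {S : List ν}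
    (h : found J V k = some S) : ∃ v S', S = v :: S' ∧ S <:+ V ∧ test J S k ≠ [] ∧
      ∀ X : Finset ν, X ⊆ S'.toFinset → X.Nonempty →
        X.card + (k + 1) ≤ (Ga J.toFinset X).card := by
  unfold found at h
  rw [Option.map_eq_some_iff] at h
  obtain ⟨j, hj, hS⟩ := h
  rw [List.find?_range_eq_some] at hj
  obtain ⟨h1, h2, h3⟩ := hj
  rw [hS] at h1
  have hsuf : S <:+ V := hS ▸ List.drop_suffix _ _
  have hlen : S.length ≤ j := by
    rw [← hS, List.length_drop]; omega
  rcases S with _ | ⟨v, S'⟩
  · simp [test] at h1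
  · refine ⟨v, S', rfl, hsuf, by simpa using h1, ?_⟩
    refine suffix_none hV S' ((List.suffix_cons v S').trans hsuf) (fun j' hj' => ?_)
    rw [List.length_cons] at hlen
    simpa using h3 j' (by omega)

theorem found_spec {J : List (List (Bool × ν))} {V : List ν} (hV : V.Nodup) {k : ℕ} {S : List ν}
    (hsur : ∀ X : Finset ν, X ⊆ V.toFinset → X.Nonempty → X.card + k ≤ (Ga J.toFinset X).card)
    (h : found J V k = some S) : ∃ v, S.head? = some v ∧ v ∈ (test J S k).toFinset ∧
      (test J S k).toFinset ⊆ V.toFinset ∧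
      (Ga J.toFinset (test J S k).toFinset).card ≤ (test J S k).toFinset.card + k ∧
      ∀ Y : Finset ν, Y ⊆ (test J S k).toFinset → Y.Nonempty →
        (Ga J.toFinset Y).card ≤ Y.card + k → v ∈ Y := by
  obtain ⟨v, S', rfl, hS, h1, h2⟩ := found_some hV h
  obtain ⟨h3, h4, h5⟩ := test_pos (hS.sublist.nodup hV) h1
  have hSV : (v :: S').toFinset ⊆ V.toFinset := by
    intro x hx
    rw [List.mem_toFinset] at hx ⊢
    exact hS.subset hx
  have h6 := hsur _ (h3.trans hSV) h4
  have hv : v ∈ (test J (v :: S') k).toFinset := by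
    by_contra hv
    rw [if_neg hv] at h5
    omega
  rw [if_pos hv] at h5
  refine ⟨v, rfl, hv, h3.trans hSV, by omega, ?_⟩
  intro Y hY hne hYt
  by_contra hvY
  have h7 : Y ⊆ S'.toFinset := by
    intro x hx
    have h8 := h3 (hY hx)
    rw [List.mem_toFinset, List.mem_cons] at h8
    rw [List.mem_toFinset]
    rcases h8 with rfl | h8
    · exact absurd hx hvY
    · exact h8
  have := h2 Y h7 hne
  omega

/-! ### Lists and finite sets -/

theorem nbr_toFinset (J : List (List (Bool × ν))) (X : List ν) :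
    (nbr J X).toFinset = Ga J.toFinset X.toFinset := by
  ext C
  rw [List.mem_toFinset, mem_Ga, List.mem_toFinset, nbr, List.mem_filter, List.any_eq_true]
  refine and_congr_right fun _ => ?_
  constructor
  · rintro ⟨l, hl, h⟩
    rw [decide_eq_true_eq] at h
    exact ⟨l.2, List.mem_toFinset.2 h, occ_iff.2 ⟨l, hl, rfl⟩⟩
  · rintro ⟨w, hw, h⟩
    obtain ⟨l, hl, rfl⟩ := occ_iff.1 h
    exact ⟨l, hl, by simpa using hw⟩

theorem filter_mem_toFinset {V X : List ν} (h : X.toFinset ⊆ V.toFinset) :
    (V.filter (fun w => decide (w ∈ X))).toFinset = X.toFinset := by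
  ext w
  rw [List.mem_toFinset, List.mem_filter, decide_eq_true_eq, List.mem_toFinset]
  exact ⟨fun h => h.2, fun hw => ⟨List.mem_toFinset.1 (h (List.mem_toFinset.2 hw)), hw⟩⟩

theorem ldl_eq {J : List (List (Bool × ν))} (hJ : J.Nodup) (l : Bool × ν) :
    ldl J l = ld J.toFinset l := by
  unfold ldl ld
  rw [← List.toFinset_card_of_nodup (hJ.filter _)]
  congr 1
  ext C
  simp

theorem pick_spec {J : List (List (Bool × ν))} (hJ : J.Nodup) (v : ν) :
    (pick J v).2 = v ∧ ld J.toFinset (!(pick J v).1, v) ≤ ld J.toFinset (pick J v) := by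
  refine ⟨rfl, ?_⟩
  unfold pick
  rw [ldl_eq hJ, ldl_eq hJ]
  by_cases h : ld J.toFinset (false, v) ≤ ld J.toFinset (true, v)
  · simp [h]
  · simp only [h, decide_false, Bool.not_false]
    omega

/-- The invariant for the states. -/
structure GInv (J0 : Finset (List (Bool × ν))) (V0 : Finset ν) (s : St ν) : Prop where
  jn : s.1.Nodup
  vn : s.2.1.Nodup
  jsub : s.1.toFinset ⊆ J0
  vsub : s.2.1.toFinset ⊆ V0
  inv : s.2.2.1 ≠ 0 → Inv s.1.toFinset s.2.1.toFinset s.2.2.1
  mat : s.2.2.1 = 0 → Mat s.1.toFinset s.2.1.toFinset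
  unsat : ∀ C ∈ s.1, ∀ l ∈ s.2.2.2, l ∉ C
  gvar : ∀ l ∈ s.2.2.2, l.2 ∈ V0 ∧ l.2 ∉ s.2.1
  gcons : ∀ l ∈ s.2.2.2, (!l.1, l.2) ∉ s.2.2.2
  out : Mat ((J0.filter (fun C => ∀ l ∈ s.2.2.2, l ∉ C)) \ s.1.toFinset)
    ((V0.filter (fun w => ∀ l ∈ s.2.2.2, l.2 ≠ w)) \ s.2.1.toFinset)

theorem mem_allLits {V : List ν} {l : Bool × ν} : l ∈ allLits V ↔ l.2 ∈ V := by
  obtain ⟨e, w⟩ := l
  unfold allLits
  rw [List.mem_flatMap]
  constructor
  · rintro ⟨v, hv, h⟩
    simp only [List.mem_cons, Prod.mk.injEq, List.not_mem_nil, or_false] at h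
    rcases h with ⟨_, rfl⟩ | ⟨_, rfl⟩ <;> exact hv
  · intro h
    refine ⟨w, h, ?_⟩
    cases e <;> simp

/-- One step of the greedy procedure. -/
theorem gstep_inv {J0 : Finset (List (Bool × ν))} {V0 : List ν} {s : St ν}
    (h : GInv J0 V0.toFinset s) (hk : s.2.2.1 ≠ 0) :
    GInv J0 V0.toFinset (gstep (allLits V0) s) ∧
      (gstep (allLits V0) s).2.1.toFinset.card < s.2.1.toFinset.card := by
  classical
  obtain ⟨J, V, k, G⟩ := s
  have hI := h.inv hk
  simp only at hk hI
  have hstep : gstep (allLits V0) (J, V, k, G) = (found J V k).elim (J, V, k, G)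
      (fun S => S.head?.elim (J, V, k, G)
        (fun v => gcore (allLits V0) (J, V, k, G) (test J S k) v)) := by
    unfold gstep
    rw [if_neg hk]
  cases hf : found J V k with
  | none =>
    exfalso
    have h1 := found_none h.vn hf V.toFinset subset_rfl hI.ne
    have h2 := Finset.card_le_card (Ga_sub J.toFinset V.toFinset)
    have h3 := hI.card
    omega
  | some S =>
    obtain ⟨v, hS, hvX, hXV, ht, hmin⟩ := found_spec h.vn hI.sur hf
    rw [hstep, hf, Option.elim_some, hS, Option.elim_some]
    set X := test J S k with hX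
    set V1 := V.filter (fun w => decide (w ∈ X)) with hV1
    have hV1f : V1.toFinset = X.toFinset := filter_mem_toFinset hXV
    set J1 := nbr J V1 with hJ1
    have hJ1f : J1.toFinset = Ga J.toFinset X.toFinset := by rw [hJ1, nbr_toFinset, hV1f]
    have hJ1n : J1.Nodup := h.jn.filter _
    obtain ⟨hp1, hp2⟩ := pick_spec hJ1n v
    set x := pick J1 v with hx
    have hxe : x = (x.1, v) := Prod.ext rfl hp1
    rw [hJ1f] at hp2
    -- the new state
    have hnew : gcore (allLits V0) (J, V, k, G) X v =
        (J1.filter (fun C => decide (x ∉ C)), V1.filter (fun w => decide (w ≠ v)),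
          k + 1 - ldl J1 x, (allLits V0).filter (fun l => decide (l ∈ G) || decide (l = x))) := rfl
    rw [hnew]
    have hJ'f : (J1.filter (fun C => decide (x ∉ C))).toFinset =
        (Ga J.toFinset X.toFinset).filter (fun C => (x.1, v) ∉ C) := by
      rw [← hJ1f]
      ext C
      rw [List.mem_toFinset, List.mem_filter, Finset.mem_filter, List.mem_toFinset,
        decide_eq_true_eq, ← hxe]
    have hV'f : (V1.filter (fun w => decide (w ≠ v))).toFinset = X.toFinset.erase v := by
      rw [← hV1f]
      ext w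
      rw [List.mem_toFinset, List.mem_filter, Finset.mem_erase, List.mem_toFinset,
        decide_eq_true_eq]
      exact and_comm
    have hld : ldl J1 x = ld (Ga J.toFinset X.toFinset) (x.1, v) := by
      rw [ldl_eq hJ1n, hJ1f, ← hxe]
    have hp3 : ld (Ga J.toFinset X.toFinset) (!x.1, v) ≤ ld (Ga J.toFinset X.toFinset) (x.1, v) := by
      rw [← hxe]; exact hp2
    have hvV : v ∈ V := List.mem_toFinset.1 (hXV hvX)
    have hvV0 : v ∈ V0 := List.mem_toFinset.1 (h.vsub (List.mem_toFinset.2 hvV))
    have hG' : ∀ l, l ∈ (allLits V0).filter (fun l => decide (l ∈ G) || decide (l = x)) ↔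
        l ∈ G ∨ l = x := by
      intro l
      rw [List.mem_filter, Bool.or_eq_true, decide_eq_true_eq, decide_eq_true_eq, mem_allLits]
      constructor
      · exact fun h => h.2
      · rintro (h1 | rfl)
        · exact ⟨List.mem_toFinset.1 (h.gvar l h1).1, Or.inl h1⟩
        · exact ⟨by rw [hp1]; exact hvV0, Or.inr rfl⟩
    have hJ'sub : Ga J.toFinset X.toFinset ⊆ J.toFinset := Ga_sub _ _
    refine ⟨⟨hJ1n.filter _, (h.vn.filter _).filter _, ?_, ?_, ?_, ?_, ?_, ?_, ?_, ?_⟩, ?_⟩
    · simp only
      rw [hJ'f]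
      exact (Finset.filter_subset _ _).trans (hJ'sub.trans h.jsub)
    · simp only
      rw [hV'f]
      exact (Finset.erase_subset _ _).trans (hXV.trans h.vsub)
    · simp only
      intro hk'
      rw [hJ'f, hV'f, hld]
      exact step_inv hI hvX hXV ht hmin hp3 (by rw [hld] at hk'; omega)
    · simp only
      intro hk'
      rw [hJ'f, hV'f]
      exact step_end hI hvX hXV ht hmin (by rw [hld] at hk'; omega)
    · simp only
      intro C hC l hl
      rw [List.mem_filter, decide_eq_true_eq] at hC
      rcases (hG' l).1 hl with h1 | rfl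
      · exact h.unsat C (List.mem_of_mem_filter hC.1) l h1
      · exact hC.2
    · simp only
      intro l hl
      rcases (hG' l).1 hl with h1 | rfl
      · refine ⟨(h.gvar l h1).1, fun h2 => (h.gvar l h1).2 ?_⟩
        exact List.mem_of_mem_filter (List.mem_of_mem_filter h2)
      · rw [hp1]
        refine ⟨List.mem_toFinset.2 hvV0, fun h2 => ?_⟩
        rw [List.mem_filter, decide_eq_true_eq] at h2
        exact h2.2 rfl
    · simp only
      intro l hl hl'
      rcases (hG' l).1 hl with h1 | h1 <;> rcases (hG' _).1 hl' with h2 | h2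
      · exact h.gcons l h1 h2
      · have h3 := (h.gvar l h1).2
        have h4 : l.2 = v := by rw [← hp1, ← h2]
        rw [h4] at h3
        exact h3 hvV
      · have h3 := (h.gvar _ h2).2
        rw [h1, hp1] at h3
        exact h3 hvV
      · rw [← h1] at h2
        have := congrArg Prod.fst h2
        simp at this
    · simp only
      have h1 := (h.out).union (step_outside hI hvX hXV) (by
        rw [Finset.disjoint_left]
        intro w hw hw'
        exact (Finset.mem_sdiff.1 hw).2 (Finset.mem_sdiff.1 hw').1)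
      refine h1.mono ?_ ?_
      · intro C hC
        rw [Finset.mem_sdiff, Finset.mem_filter, hJ'f] at hC
        obtain ⟨⟨hC0, hCG⟩, hC'⟩ := hC
        rw [Finset.mem_union, Finset.mem_sdiff, Finset.mem_sdiff, Finset.mem_filter]
        by_cases hCJ : C ∈ J.toFinset
        · refine Or.inr ⟨hCJ, fun h2 => hC' (Finset.mem_filter.2 ⟨h2, ?_⟩)⟩
          rw [← hxe]
          exact hCG x ((hG' x).2 (Or.inr rfl))
        · exact Or.inl ⟨⟨hC0, fun l hl => hCG l ((hG' l).2 (Or.inl hl))⟩, hCJ⟩
      · intro w hw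
        rw [hV'f]
        rw [Finset.mem_union, Finset.mem_sdiff, Finset.mem_sdiff, Finset.mem_filter] at hw
        rw [Finset.mem_sdiff, Finset.mem_filter]
        rcases hw with ⟨⟨hw0, hwG⟩, hwV⟩ | ⟨hwV, hwX⟩
        · refine ⟨⟨hw0, fun l hl => ?_⟩, fun h2 => hwV (hXV (Finset.mem_of_mem_erase h2))⟩
          rcases (hG' l).1 hl with h2 | rfl
          · exact hwG l h2
          · rw [hp1]
            rintro rfl
            exact hwV (List.mem_toFinset.2 hvV)
        · refine ⟨⟨h.vsub hwV, fun l hl => ?_⟩, fun h2 => hwX (Finset.mem_of_mem_erase h2)⟩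
          rcases (hG' l).1 hl with h2 | rfl
          · rintro rfl
            exact (h.gvar l h2).2 (List.mem_toFinset.1 hwV)
          · rw [hp1]
            rintro rfl
            exact hwX hvX
    · simp only
      rw [hV'f]
      exact lt_of_lt_of_le (Finset.card_erase_lt_of_mem hvX) (Finset.card_le_card hXV)

theorem gstep_zero {L : List (Bool × ν)} {s : St ν} (h : s.2.2.1 = 0) : gstep L s = s := by
  unfold gstep
  rw [if_pos h]

/-- The greedy phase. -/
theorem greedy_spec {J : List (List (Bool × ν))} {V : List ν} {k : ℕ}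
    (hJ : J.Nodup) (hV : V.Nodup) (hI : Inv J.toFinset V.toFinset k) :
    GInv J.toFinset V.toFinset (greedy J V k) ∧ (greedy J V k).2.2.1 = 0 := by
  have key : ∀ n, GInv J.toFinset V.toFinset ((gstep (allLits V))^[n] (J, V, k, [])) ∧
      (((gstep (allLits V))^[n] (J, V, k, [])).2.2.1 = 0 ∨
        ((gstep (allLits V))^[n] (J, V, k, [])).2.1.toFinset.card + n ≤ V.length) := by
    intro n
    induction n with
    | zero =>
      refine ⟨⟨hJ, hV, subset_rfl, subset_rfl, fun _ => hI, fun h => ?_, by simp, by simp,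
        by simp, ?_⟩, Or.inr ?_⟩
      · simp only [Function.iterate_zero, id] at h
        have := hI.hk
        omega
      · simp only [Function.iterate_zero, id]
        obtain ⟨v, _⟩ := hI.ne
        exact ⟨fun _ => v, by intro C hC; simp at hC, by intro C hC; simp at hC⟩
      · simp only [Function.iterate_zero, id]
        exact List.toFinset_card_le V
    | succ n ih =>
      rw [Function.iterate_succ_apply']
      obtain ⟨h1, h2⟩ := ih
      by_cases h0 : ((gstep (allLits V))^[n] (J, V, k, [])).2.2.1 = 0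
      · rw [gstep_zero h0]
        exact ⟨h1, Or.inl h0⟩
      · obtain ⟨h3, h4⟩ := gstep_inv h1 h0
        refine ⟨h3, Or.inr ?_⟩
        rcases h2 with h2 | h2
        · exact absurd h2 h0
        · omega
  obtain ⟨h1, h2⟩ := key V.length
  refine ⟨h1, ?_⟩
  by_contra h0
  have h3 := (h1.inv h0).ne
  rcases h2 with h2 | h2
  · exact h0 h2
  · have := Finset.card_pos.2 h3
    omega

theorem rest_toFinset (J : List (List (Bool × ν))) (G : List (Bool × ν)) :
    (rest J G).toFinset = J.toFinset.filter (fun C => ∀ l ∈ G, l ∉ C) := by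
  ext C
  simp only [rest, List.mem_toFinset, List.mem_filter, Bool.not_eq_true', List.any_eq_false,
    decide_eq_true_eq, Finset.mem_filter]
  refine and_congr_right fun _ => ?_
  exact ⟨fun h l hl hlC => h l hlC hl, fun h l hl hlG => h l hlG hl⟩

theorem free_toFinset (V : List ν) (G : List (Bool × ν)) :
    (free V G).toFinset = V.toFinset.filter (fun w => ∀ l ∈ G, l.2 ≠ w) := by
  ext w
  simp only [free, List.mem_toFinset, List.mem_filter, Bool.not_eq_true', List.any_eq_false,
    decide_eq_true_eq, Finset.mem_filter, ne_eq]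

theorem mem_fedges {R : List (List (Bool × ν))} {U : List ν} {e : List (Bool × ν) × ν} :
    e ∈ fedges R U ↔ e.1 ∈ R ∧ e.2 ∈ U ∧ occ e.2 e.1 = true := by
  unfold fedges
  rw [List.mem_filter]
  obtain ⟨a, C⟩ := e
  rw [List.mem_product]
  exact and_assoc

/-- If a saturating matching exists then the procedure finds one. -/
theorem run_saturates {R : List (List (Bool × ν))} {U : List ν} (hR : R.Nodup)
    (h : Mat R.toFinset U.toFinset) : ∀ C ∈ R, ∃ m ∈ run R (fedges R U), m.1 = C := by
  obtain ⟨hM, h1⟩ := run_spec hR (E := fedges R U) (fun e he => (mem_fedges.1 he).1)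
  rcases h1 with h1 | ⟨h1, h2⟩
  · exact h1
  · exfalso
    obtain ⟨f, hf1, hf2⟩ := h
    refine absurd h2 (not_lt.2 ?_)
    have h3 : (viol R (fedges R U)).toFinset.card =
        ((viol R (fedges R U)).toFinset.image f).card := by
      rw [Finset.card_image_of_injOn]
      refine hf1.mono ?_
      intro C hC
      rw [Finset.mem_coe, List.mem_toFinset] at hC ⊢
      exact h1 hC
    rw [h3]
    apply Finset.card_le_card
    intro w hw
    rw [Finset.mem_image] at hw
    obtain ⟨C, hC, rfl⟩ := hw
    rw [List.mem_toFinset] at hC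
    obtain ⟨h4, h5⟩ := hf2 C (List.mem_toFinset.2 (h1 hC))
    rw [List.mem_toFinset, List.mem_map]
    refine ⟨(C, f C), List.mem_filter.2 ⟨mem_fedges.2 ⟨h1 hC, List.mem_toFinset.1 h4, h5⟩, ?_⟩, rfl⟩
    simpa using hC

theorem mem_finish {J : List (List (Bool × ν))} {V : List ν} {G : List (Bool × ν)}
    {l : Bool × ν} (h : l ∈ finish J V G) : l ∈ G ∨
      ∃ m ∈ run (rest J G) (fedges (rest J G) (free V G)), l ∈ m.1 ∧ l.2 = m.2 := by
  unfold finish at h
  rw [List.mem_append, List.mem_filterMap] at h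
  rcases h with h | ⟨m, hm, h⟩
  · exact Or.inl h
  · refine Or.inr ⟨m, hm, List.mem_of_find?_eq_some h, ?_⟩
    simpa using List.find?_some h

/-- The properties of the result, given the outcome of the greedy phase. -/
theorem finish_spec {J : List (List (Bool × ν))} {V : List ν} {s : St ν} (hJ : J.Nodup)
    (h : GInv J.toFinset V.toFinset s) (h0 : s.2.2.1 = 0) :
    (∀ l ∈ finish J V s.2.2.2, (!l.1, l.2) ∉ finish J V s.2.2.2) ∧
    (∀ C ∈ J, ∃ l ∈ finish J V s.2.2.2, l ∈ C) ∧
    (∀ l ∈ finish J V s.2.2.2, l.2 ∈ V) := by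
  classical
  set G := s.2.2.2 with hG
  have hRn : (rest J G).Nodup := hJ.filter _
  have hmat : Mat (rest J G).toFinset (free V G).toFinset := by
    have h1 := h.out.union (h.mat h0) Finset.sdiff_disjoint
    refine h1.mono ?_ ?_
    · intro C hC
      rw [rest_toFinset] at hC
      rw [Finset.mem_union, Finset.mem_sdiff]
      by_cases hCs : C ∈ s.1.toFinset
      · exact Or.inr hCs
      · exact Or.inl ⟨hC, hCs⟩
    · intro w hw
      rw [free_toFinset]
      rw [Finset.mem_union, Finset.mem_sdiff] at hw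
      rcases hw with hw | hw
      · exact hw.1
      · refine Finset.mem_filter.2 ⟨h.vsub hw, fun l hl => ?_⟩
        rintro rfl
        exact (h.gvar l hl).2 (List.mem_toFinset.1 hw)
  have hsat := run_saturates hRn hmat
  obtain ⟨hM, _⟩ := run_spec hRn (E := fedges (rest J G) (free V G))
    (fun e he => (mem_fedges.1 he).1)
  have hfree : ∀ m ∈ run (rest J G) (fedges (rest J G) (free V G)),
      m.2 ∈ V ∧ ∀ l ∈ G, l.2 ≠ m.2 := by
    intro m hm
    have h1 := (mem_fedges.1 (hM.sub m hm)).2.1
    rw [← List.mem_toFinset, free_toFinset, Finset.mem_filter, List.mem_toFinset] at h1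
    exact h1
  refine ⟨?_, ?_, ?_⟩
  · intro l hl hl'
    rcases mem_finish hl with h1 | ⟨m, hm, h1, h2⟩ <;>
      rcases mem_finish hl' with h3 | ⟨m', hm', h3, h4⟩
    · exact h.gcons l h1 h3
    · exact (hfree m' hm').2 l h1 h4
    · exact (hfree m hm).2 _ h3 h2
    · simp only at h4
      have h5 := hM.inj2 m hm m' hm' (h2.symm.trans h4)
      -- both literals come from the same edge
      unfold finish at hl hl'
      rw [List.mem_append, List.mem_filterMap] at hl hl'
      rcases hl with h6 | ⟨m1, hm1, h6⟩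
      · exact (hfree m hm).2 _ h6 h2
      rcases hl' with h7 | ⟨m2, hm2, h7⟩
      · exact (hfree m hm).2 _ h7 h2
      have h8 : l.2 = m1.2 := by simpa using List.find?_some h6
      have h9 : l.2 = m2.2 := by simpa using List.find?_some h7
      have h10 := hM.inj2 m1 hm1 m2 hm2 (h8.symm.trans h9)
      subst h10
      rw [h6] at h7
      have := congrArg Prod.fst (Option.some.inj h7)
      simp at this
  · intro C hC
    by_cases hCR : C ∈ rest J G
    · obtain ⟨m, hm, rfl⟩ := hsat C hCR
      have h1 := (mem_fedges.1 (hM.sub m hm)).2.2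
      obtain ⟨l, hl, hl2⟩ := occ_iff.1 h1
      cases hf : m.1.find? (fun l => decide (l.2 = m.2)) with
      | none =>
        rw [List.find?_eq_none] at hf
        exact absurd (by simpa using hl2) (hf l hl)
      | some l' =>
        refine ⟨l', ?_, List.mem_of_find?_eq_some hf⟩
        unfold finish
        rw [List.mem_append, List.mem_filterMap]
        exact Or.inr ⟨m, hm, hf⟩
    · rw [← List.mem_toFinset, rest_toFinset, Finset.mem_filter, not_and] at hCR
      have h1 := hCR (List.mem_toFinset.2 hC)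
      push Not at h1
      obtain ⟨l, hl, hlC⟩ := h1
      exact ⟨l, by unfold finish; exact List.mem_append_left _ hl, hlC⟩
  · intro l hl
    rcases mem_finish hl with h1 | ⟨m, hm, _, h2⟩
    · exact List.mem_toFinset.1 (h.gvar l h1).1
    · rw [h2]
      exact (hfree m hm).1

/-- Correctness of the algorithm. -/
theorem algo_spec {J : List (List (Bool × ν))} (hJ : J.Nodup) {k : ℕ} (hk : 1 ≤ k)
    (taut : ∀ C ∈ J, ∀ v, ¬ ((true, v) ∈ C ∧ (false, v) ∈ C))
    (hsur : ∀ X : Finset ν, X ⊆ (vars J).toFinset → X.Nonempty →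
      X.card + k ≤ (Ga J.toFinset X).card)
    (htight : ∃ X : Finset ν, X ⊆ (vars J).toFinset ∧ X.Nonempty ∧
      (Ga J.toFinset X).card ≤ X.card + k)
    (hdeg : ∀ v ∈ vars J, nM k < ld J.toFinset (true, v) + ld J.toFinset (false, v)) :
    (∀ l ∈ algo J, (!l.1, l.2) ∉ algo J) ∧
    (∀ C ∈ J, (∃ l ∈ algo J, occ l.2 C = true) → ∃ l ∈ algo J, l ∈ C) ∧
    (∃ l ∈ algo J, l.2 ∈ vars J) := by
  have hV := vars_nodup J
  set V := vars J with hVdef
  obtain ⟨X0, hX0, hX0ne, hX0t⟩ := htight
  have hnot : ∀ j, j + 1 < k → ¬ (found J V (j + 1)).isSome = true := by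
    intro j hj hs
    obtain ⟨S, hS⟩ := Option.isSome_iff_exists.1 hs
    obtain ⟨v, _, h1, h2, h3, _⟩ := found_spec hV (k := j + 1)
      (fun X hX hne => by have := hsur X hX hne; omega) hS
    have := hsur _ h2 ⟨v, h1⟩
    omega
  obtain ⟨S, hS⟩ : ∃ S, found J V k = some S := by
    rw [← Option.isSome_iff_exists, ← Option.ne_none_iff_isSome]
    intro h
    have := found_none hV h X0 hX0 hX0ne
    omega
  have hK : initK J V = some (k - 1) := by
    unfold initK
    rw [List.find?_range_eq_some]
    refine ⟨?_, ?_, ?_⟩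
    · rw [show k - 1 + 1 = k by omega, hS]; rfl
    · rw [List.mem_range]
      have h1 := hsur X0 hX0 hX0ne
      have h2 := (Finset.card_le_card (Ga_sub J.toFinset X0)).trans (List.toFinset_card_le J)
      omega
    · intro j hj
      simpa using hnot j (by omega)
  have halgo : algo J = second J V k S := by
    unfold algo
    rw [← hVdef, hK, Option.elim_some, show k - 1 + 1 = k by omega, hS, Option.elim_some]
  obtain ⟨v, _, hvX, hXV, ht, _⟩ := found_spec hV hsur hS
  set X := test J S k with hX
  set V1 := V.filter (fun w => decide (w ∈ X)) with hV1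
  set J1 := nbr J V1 with hJ1
  have hV1f : V1.toFinset = X.toFinset := filter_mem_toFinset hXV
  have hJ1f : J1.toFinset = Ga J.toFinset X.toFinset := by rw [hJ1, nbr_toFinset, hV1f]
  have hJ1n : J1.Nodup := hJ.filter _
  have hV1n : V1.Nodup := hV.filter _
  have hI : Inv J1.toFinset V1.toFinset k := by
    rw [hJ1f, hV1f]
    refine ⟨hk, ⟨v, hvX⟩, ?_, ?_, ?_, ?_⟩
    · have := hsur _ hXV ⟨v, hvX⟩
      omega
    · intro Y hY hne
      rw [Ga_Ga hY]
      exact hsur Y (hY.trans hXV) hne
    · intro w hw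
      rw [ld_Ga (by exact hw), ld_Ga (by exact hw)]
      exact hdeg w (List.mem_toFinset.1 (hXV hw))
    · intro C hC
      exact taut C (List.mem_toFinset.1 (Ga_sub _ _ hC))
  obtain ⟨hg1, hg2⟩ := greedy_spec hJ1n hV1n hI
  have hres : algo J = finish J1 V1 (greedy J1 V1 k).2.2.2 := halgo
  rw [hres]
  obtain ⟨h1, h2, h3⟩ := finish_spec hJ1n hg1 hg2
  refine ⟨h1, ?_, ?_⟩
  · rintro C hC ⟨l, hl, hlC⟩
    apply h2
    rw [← List.mem_toFinset, hJ1f, mem_Ga, ← hV1f]
    exact ⟨List.mem_toFinset.2 hC, l.2, List.mem_toFinset.2 (h3 l hl), hlC⟩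
  · have hne : J1.toFinset.Nonempty := by
      rw [← Finset.card_pos, hI.card]
      omega
    obtain ⟨C, hC⟩ := hne
    obtain ⟨l, hl, _⟩ := h2 C (List.mem_toFinset.1 hC)
    exact ⟨l, hl, List.mem_of_mem_filter (h3 l hl)⟩

end Pool.Agent.Helper80.Aut
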