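import Mathlib
import Pool.Agent.Helper80.Aut.Algo
import Pool.Agent.Helper81.CompC

/-!
# The algorithm runs in polynomial time
-/

namespace Pool.Agent.Helper80.Aut

open Pool.Agent.Helper81.CC

section Matching

variable {α β γ : Type} [ToData α] [ToData β] [ToData γ]
variable [DecidableEq β] [DecidableEq γ]

omit [DecidableEq β] in
theorem sz_sublist {l l' : List β} (h : l.Sublist l') : sz l ≤ sz l' := by
  induction h with
  | slnil => exact le_rfl
  | cons a _ ih => rw [sz_cons]; omega
  | cons_cons a _ ih => rw [sz_cons, sz_cons]; omega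

@[fun_prop]
theorem pt_base {A : α → List β} {M : α → List (β × γ)} (hA : PolyTime A)
    (hM : PolyTime M) : PolyTime (fun a => base (A a) (M a)) := by
  unfold base
  fun_prop

@[fun_prop]
theorem pt_reachStep {A : α → List β} {E M : α → List (β × γ)} {R : α → List β}
    (hA : PolyTime A) (hE : PolyTime E) (hM : PolyTime M) (hR : PolyTime R) :
    PolyTime (fun a => reachStep (A a) (E a) (M a) (R a)) := by
  unfold reachStep
  fun_prop

omit [ToData β] [ToData γ] in
theorem reach_sublist (A : List β) (E M : List (β × γ)) (i : ℕ) :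
    (reach A E M i).Sublist A := by
  cases i with
  | zero => rw [reach_zero]; exact List.filter_sublist
  | succ i => rw [reach_succ]; exact List.filter_sublist

@[fun_prop]
theorem pt_reach {A : α → List β} {E M : α → List (β × γ)} {i : α → ℕ}
    (hA : PolyTime A) (hE : PolyTime E) (hM : PolyTime M) (hi : PolyTime i) :
    PolyTime (fun a => reach (A a) (E a) (M a) (i a)) := by
  unfold reach
  refine PolyTime.iterate_bd (s0 := fun a => base (A a) (M a))
    (step := fun a R => reachStep (A a) (E a) (M a) R) hi (by fun_prop) (by fun_prop)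
    (B := fun a => sz (A a)) hA.bd ?_
  intro a k _
  exact sz_sublist (reach_sublist (A a) (E a) (M a) k)

@[fun_prop]
theorem pt_good {A : α → List β} {E M : α → List (β × γ)} {i : α → ℕ} {e : α → β × γ}
    (hA : PolyTime A) (hE : PolyTime E) (hM : PolyTime M) (hi : PolyTime i) (he : PolyTime e) :
    PolyTime (fun a => good (A a) (E a) (M a) (i a) (e a)) := by
  unfold good
  fun_prop

@[fun_prop]
theorem pt_lvl {A : α → List β} {E M : α → List (β × γ)}
    (hA : PolyTime A) (hE : PolyTime E) (hM : PolyTime M) :
    PolyTime (fun a => lvl (A a) (E a) (M a)) := by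
  unfold lvl
  fun_prop

@[fun_prop]
theorem pt_cand {A : α → List β} {E M : α → List (β × γ)}
    (hA : PolyTime A) (hE : PolyTime E) (hM : PolyTime M) :
    PolyTime (fun a => cand (A a) (E a) (M a)) := by
  unfold cand
  fun_prop

@[fun_prop]
theorem pt_upd {E M : α → List (β × γ)} {e : α → β × γ}
    (hE : PolyTime E) (hM : PolyTime M) (he : PolyTime e) :
    PolyTime (fun a => upd (E a) (M a) (e a)) := by
  unfold upd
  fun_prop

@[fun_prop]
theorem pt_step {A : α → List β} {E M : α → List (β × γ)}
    (hA : PolyTime A) (hE : PolyTime E) (hM : PolyTime M) :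
    PolyTime (fun a => step (A a) (E a) (M a)) := by
  unfold step
  fun_prop

omit [ToData β] [ToData γ] in
theorem step_sublist (A : List β) (E M : List (β × γ)) (h : M.Sublist E) :
    (step A E M).Sublist E := by
  unfold step
  cases cand A E M with
  | none => exact h
  | some e => exact List.filter_sublist

omit [ToData β] [ToData γ] in
theorem iter_sublist (A : List β) (E : List (β × γ)) (n : ℕ) :
    ((step A E)^[n] []).Sublist E := by
  induction n with
  | zero => exact List.nil_sublist _
  | succ n ih =>
    rw [Function.iterate_succ_apply']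
    exact step_sublist A E _ ih

@[fun_prop]
theorem pt_run {A : α → List β} {E : α → List (β × γ)}
    (hA : PolyTime A) (hE : PolyTime E) :
    PolyTime (fun a => run (A a) (E a)) := by
  unfold run
  refine PolyTime.iterate_bd (s0 := fun a => ([] : List (β × γ)))
    (step := fun a M => step (A a) (E a) M) (by fun_prop) (by fun_prop) (by fun_prop)
    (B := fun a => sz (E a)) hE.bd ?_
  intro a k _
  exact sz_sublist (iter_sublist (A a) (E a) k)

@[fun_prop]
theorem pt_viol {A : α → List β} {E : α → List (β × γ)}
    (hA : PolyTime A) (hE : PolyTime E) :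
    PolyTime (fun a => viol (A a) (E a)) := by
  unfold viol
  fun_prop

omit [ToData γ] [DecidableEq β] [DecidableEq γ] in
@[fun_prop]
theorem pt_ded {r : β → β → Bool} (hr : PolyTime (fun z : β × β => r z.1 z.2))
    {l : α → List β} (hl : PolyTime l) : PolyTime (fun a => ded r (l a)) := by
  unfold ded
  have h : PolyTime (fun z : α × List β × β =>
      if z.2.1.any (r z.2.2) = true then z.2.1 else z.2.2 :: z.2.1) := by
    have h1 : PolyTime (fun z : α × List β × β => z.2.1.any (r z.2.2)) :=
      PolyTime.any (f := fun (z : α × List β × β) b => r z.2.2 b) (by fun_prop)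
        (PolyTime.comp (g := fun z : β × β => r z.1 z.2)
          (f := fun w : (α × List β × β) × β => (w.1.2.2, w.2)) hr (by fun_prop))
    exact PolyTime.ite h1 (by fun_prop) (by fun_prop)
  refine PolyTime.foldl_add (s0 := fun _ : α => ([] : List β))
    (step := fun _ acc b => if acc.any (r b) = true then acc else b :: acc) hl (by fun_prop) h
    (C := fun a => sz (l a) + 1) (hl.bd.add (PBd.const 1)) ?_
  intro a s b hb
  have := sz_le_of_mem hb
  split_ifs
  · omega
  · rw [sz_cons]; omega

end Matching

section Main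

variable {α ν : Type} [ToData α] [ToData ν] [DecidableEq ν]

@[fun_prop]
theorem pt_occ {w : α → ν} {C : α → List (Bool × ν)} (hw : PolyTime w) (hC : PolyTime C) :
    PolyTime (fun a => occ (w a) (C a)) := by
  unfold occ
  fun_prop

@[fun_prop]
theorem pt_same {C D : α → List (Bool × ν)} (hC : PolyTime C) (hD : PolyTime D) :
    PolyTime (fun a => same (C a) (D a)) := by
  unfold same
  fun_prop

@[fun_prop]
theorem pt_vars {J : α → List (List (Bool × ν))} (hJ : PolyTime J) :
    PolyTime (fun a => vars (J a)) := by
  unfold vars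
  exact pt_ded (by fun_prop) (by fun_prop)

@[fun_prop]
theorem pt_nbr {J : α → List (List (Bool × ν))} {X : α → List ν} (hJ : PolyTime J)
    (hX : PolyTime X) : PolyTime (fun a => nbr (J a) (X a)) := by
  unfold nbr
  fun_prop

@[fun_prop]
theorem pt_lefts {S : α → List ν} {v : α → ν} {k : α → ℕ} (hS : PolyTime S)
    (hv : PolyTime v) (hk : PolyTime k) : PolyTime (fun a => lefts (S a) (v a) (k a)) := by
  unfold lefts
  fun_prop

@[fun_prop]
theorem pt_edges {A : α → List (ν × ℕ)} {J : α → List (List (Bool × ν))} (hA : PolyTime A)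
    (hJ : PolyTime J) : PolyTime (fun a => edges (A a) (J a)) := by
  unfold edges
  fun_prop

@[fun_prop]
theorem pt_test {J : α → List (List (Bool × ν))} {S : α → List ν} {k : α → ℕ} (hJ : PolyTime J)
    (hS : PolyTime S) (hk : PolyTime k) : PolyTime (fun a => test (J a) (S a) (k a)) := by
  unfold test
  fun_prop

@[fun_prop]
theorem pt_found {J : α → List (List (Bool × ν))} {S : α → List ν} {k : α → ℕ} (hJ : PolyTime J)
    (hS : PolyTime S) (hk : PolyTime k) : PolyTime (fun a => found (J a) (S a) (k a)) := by
  unfold found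
  fun_prop

@[fun_prop]
theorem pt_ldl {J : α → List (List (Bool × ν))} {l : α → Bool × ν} (hJ : PolyTime J)
    (hl : PolyTime l) : PolyTime (fun a => ldl (J a) (l a)) := by
  unfold ldl
  fun_prop

@[fun_prop]
theorem pt_pick {J : α → List (List (Bool × ν))} {v : α → ν} (hJ : PolyTime J)
    (hv : PolyTime v) : PolyTime (fun a => pick (J a) (v a)) := by
  unfold pick
  fun_prop

@[fun_prop]
theorem pt_gcore {L : α → List (Bool × ν)} {s : α → St ν} {X : α → List ν} {v : α → ν}
    (hL : PolyTime L) (hs : PolyTime s) (hX : PolyTime X) (hv : PolyTime v) :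
    PolyTime (fun a => gcore (L a) (s a) (X a) (v a)) := by
  unfold gcore
  fun_prop

@[fun_prop]
theorem pt_gstep {L : α → List (Bool × ν)} {s : α → St ν}
    (hL : PolyTime L) (hs : PolyTime s) :
    PolyTime (fun a => gstep (L a) (s a)) := by
  unfold gstep
  fun_prop

@[fun_prop]
theorem pt_rest {J : α → List (List (Bool × ν))} {G : α → List (Bool × ν)} (hJ : PolyTime J)
    (hG : PolyTime G) : PolyTime (fun a => rest (J a) (G a)) := by
  unfold rest
  fun_prop

@[fun_prop]
theorem pt_free {V : α → List ν} {G : α → List (Bool × ν)} (hV : PolyTime V)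
    (hG : PolyTime G) : PolyTime (fun a => free (V a) (G a)) := by
  unfold free
  fun_prop

@[fun_prop]
theorem pt_fedges {R : α → List (List (Bool × ν))} {U : α → List ν} (hR : PolyTime R)
    (hU : PolyTime U) : PolyTime (fun a => fedges (R a) (U a)) := by
  unfold fedges
  fun_prop

@[fun_prop]
theorem pt_finish {J : α → List (List (Bool × ν))} {V : α → List ν} {G : α → List (Bool × ν)}
    (hJ : PolyTime J) (hV : PolyTime V) (hG : PolyTime G) :
    PolyTime (fun a => finish (J a) (V a) (G a)) := by
  unfold finish
  fun_prop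

@[fun_prop]
theorem pt_allLits {V : α → List ν} (hV : PolyTime V) : PolyTime (fun a => allLits (V a)) := by
  unfold allLits
  fun_prop

omit [ToData ν] in
theorem gstep_sub (L : List (Bool × ν)) (s : St ν) :
    (gstep L s).1.Sublist s.1 ∧ (gstep L s).2.1.Sublist s.2.1 ∧
      (gstep L s).2.2.1 ≤ s.2.2.1 + 1 ∧
      ((gstep L s).2.2.2 = s.2.2.2 ∨ (gstep L s).2.2.2.Sublist L) := by
  have h0 : s.1.Sublist s.1 ∧ s.2.1.Sublist s.2.1 ∧ s.2.2.1 ≤ s.2.2.1 + 1 ∧
      (s.2.2.2 = s.2.2.2 ∨ s.2.2.2.Sublist L) :=
    ⟨List.Sublist.refl _, List.Sublist.refl _, Nat.le_succ _, Or.inl rfl⟩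
  unfold gstep
  split_ifs with h
  · exact h0
  · cases found s.1 s.2.1 s.2.2.1 with
    | none => exact h0
    | some S =>
      rw [Option.elim_some]
      cases S.head? with
      | none => exact h0
      | some v =>
        rw [Option.elim_some]
        refine ⟨?_, ?_, ?_, Or.inr ?_⟩
        · exact List.filter_sublist.trans List.filter_sublist
        · exact List.filter_sublist.trans List.filter_sublist
        · exact Nat.sub_le _ _
        · exact List.filter_sublist

omit [ToData ν] in
theorem greedy_sub (J : List (List (Bool × ν))) (V : List ν) (k : ℕ) (n : ℕ) :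
    ((gstep (allLits V))^[n] (J, V, k, [])).1.Sublist J ∧
    ((gstep (allLits V))^[n] (J, V, k, [])).2.1.Sublist V ∧
      ((gstep (allLits V))^[n] (J, V, k, [])).2.2.1 ≤ k + n ∧
      ((gstep (allLits V))^[n] (J, V, k, [])).2.2.2.Sublist (allLits V) := by
  induction n with
  | zero => exact ⟨List.Sublist.refl _, List.Sublist.refl _, le_rfl, List.nil_sublist _⟩
  | succ n ih =>
    rw [Function.iterate_succ_apply']
    obtain ⟨h1, h2, h3, h4⟩ := ih
    obtain ⟨h5, h6, h7, h8⟩ := gstep_sub (allLits V) ((gstep (allLits V))^[n] (J, V, k, []))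
    refine ⟨h5.trans h1, h6.trans h2, by omega, ?_⟩
    rcases h8 with h8 | h8
    · rw [h8]; exact h4
    · exact h8

@[fun_prop]
theorem pt_greedy {J : α → List (List (Bool × ν))} {V : α → List ν} {k : α → ℕ}
    (hJ : PolyTime J) (hV : PolyTime V) (hk : PolyTime k) :
    PolyTime (fun a => greedy (J a) (V a) (k a)) := by
  unfold greedy
  have h1 : PolyTime (fun a => allLits (V a)) := by fun_prop
  refine PolyTime.iterate_bd (s0 := fun a => (J a, V a, k a, ([] : List (Bool × ν))))
    (step := fun a s => gstep (allLits (V a)) s) (by fun_prop) (by fun_prop) (by fun_prop)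
    (B := fun a => sz (J a) + (sz (V a) + (2 * (k a + (V a).length) + 1) + sz (allLits (V a)) + 3))
    ?_ ?_
  · exact hJ.bd.add (((hV.bd.add (((PBd.const 2).mul ((PBd.nat hk).add (PBd.length hV))).add
      (PBd.const 1))).add h1.bd).add (PBd.const 3))
  · intro a n hn
    obtain ⟨h2, h3, h4, h5⟩ := greedy_sub (J a) (V a) (k a) n
    set s := (gstep (allLits (V a)))^[n] (J a, V a, k a, []) with hs
    have e : s = (s.1, s.2.1, s.2.2.1, s.2.2.2) := rfl
    rw [e, sz_pair, sz_pair, sz_pair, sz_nat]
    have h6 := sz_sublist h2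
    have h7 := sz_sublist h3
    have h8 := sz_sublist h5
    omega

@[fun_prop]
theorem pt_second {J : α → List (List (Bool × ν))} {V : α → List ν} {k : α → ℕ} {S : α → List ν}
    (hJ : PolyTime J) (hV : PolyTime V) (hk : PolyTime k) (hS : PolyTime S) :
    PolyTime (fun a => second (J a) (V a) (k a) (S a)) := by
  unfold second
  fun_prop

@[fun_prop]
theorem pt_initK {J : α → List (List (Bool × ν))} {V : α → List ν} (hJ : PolyTime J)
    (hV : PolyTime V) : PolyTime (fun a => initK (J a) (V a)) := by
  unfold initK
  fun_prop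

@[fun_prop]
theorem pt_algo {J : α → List (List (Bool × ν))} (hJ : PolyTime J) :
    PolyTime (fun a => algo (J a)) := by
  unfold algo
  fun_prop

theorem pt_main : PolyTime (fun F : List (List (Bool × ν)) => algo (ded same F)) :=
  pt_algo (pt_ded (by fun_prop) (by fun_prop))

end Main

end Pool.Agent.Helper80.Aut
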